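import Mathlib

namespace Pool.Agent.P.MP_07d438_ag

universe u

/-- The depth of `S ⧸ J` for the polynomial ring `S = K[x_1, …, x_n]`: the supremum of the lengths
of the `S ⧸ J`-regular sequences contained in the ideal `(x_1, …, x_n)`. -/
noncomputable def depth {K : Type u} [Field K] {n : ℕ} (J : Ideal (MvPolynomial (Fin n) K)) : ℕ∞ :=
  ⨆ (rs : List (MvPolynomial (Fin n) K))
    (_ : ∀ f ∈ rs, f ∈ Ideal.span (Set.range (MvPolynomial.X : Fin n → MvPolynomial (Fin n) K)))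
    (_ : RingTheory.Sequence.IsRegular (MvPolynomial (Fin n) K ⧸ J) rs), (rs.length : ℕ∞)

/-- A homogeneous ideal for the standard grading: an ideal generated by homogeneous polynomials. -/
def IsHomogeneousIdeal {K : Type u} [Field K] {n : ℕ} (Q : Ideal (MvPolynomial (Fin n) K)) : Prop :=
  ∃ G : Set (MvPolynomial (Fin n) K), (∀ g ∈ G, ∃ d, g.IsHomogeneous d) ∧ Q = Ideal.span G

/-- `f` is the depth function of a proper nonzero homogeneous ideal of `K[x_1, …, x_n]`. -/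
def RealizedIn (K : Type u) [Field K] (n : ℕ) (f : ℕ → ℕ) : Prop :=
  ∃ Q : Ideal (MvPolynomial (Fin n) K), IsHomogeneousIdeal Q ∧ Q ≠ ⊤ ∧ Q ≠ ⊥ ∧
    ∀ t, 1 ≤ t → depth (Q ^ t) = (f t : ℕ∞)

end Pool.Agent.P.MP_07d438_ag
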