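import Mathlib
import Pool.Agent.P.MP_b90300_al.DepthMI
import Pool.Agent.P.MP_07d438_ag.Defs

open MvPolynomial

namespace Pool.Agent.P.MP_07d438_ag

open Pool.Agent.P.MP_b90300_al (DE DE_mid DE_left DE_right DE_succ_of_nzd DE_pred_of_nzd
  DE_iff_regular exists_regular_of_DE_one mx mx_eq isPrime_PF MI Up dep_of_up Dep)

universe u

section general

variable {R : Type u} [CommRing R]

lemma dim_step (I : Ideal R) (x : R) (hx : ∀ f, x * f ∈ I → f ∈ I) :
    ringKrullDim (R ⧸ (I ⊔ Ideal.span {x})) + 1 ≤ ringKrullDim (R ⧸ I) := by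
  refine ringKrullDim_succ_le_of_surjective (Ideal.Quotient.factor le_sup_left)
    (Ideal.Quotient.factor_surjective _) (r := Ideal.Quotient.mk I x) ?_ ?_
  · rw [mem_nonZeroDivisors_iff_left]
    intro y hy
    obtain ⟨f, rfl⟩ := Ideal.Quotient.mk_surjective y
    rw [← map_mul, Ideal.Quotient.eq_zero_iff_mem] at hy
    exact Ideal.Quotient.eq_zero_iff_mem.2 (hx f hy)
  · rw [Ideal.Quotient.factor_mk, Ideal.Quotient.eq_zero_iff_mem]
    exact Ideal.mem_sup_right (Ideal.mem_span_singleton_self x)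

lemma nzd_of_isSMulRegular {I : Ideal R} {x : R} (h : IsSMulRegular (R ⧸ I) x) (f : R)
    (hf : x * f ∈ I) : f ∈ I := by
  have h3 : x • (Submodule.Quotient.mk f : R ⧸ I) = x • 0 := by
    rw [smul_zero, ← Submodule.Quotient.mk_smul, Submodule.Quotient.mk_eq_zero]
    exact hf
  exact (Submodule.Quotient.mk_eq_zero _).1 (h h3)

lemma le_dim_of_DE [IsNoetherianRing R] (m : Ideal R) (d : ℕ) (J : Ideal R) (hJ : J ⊔ m ≠ ⊤)
    (h : DE (ModuleCat.of R (R ⧸ m)) (R ⧸ J) d) : (d : WithBot ℕ∞) ≤ ringKrullDim (R ⧸ J) := by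
  induction d generalizing J with
  | zero =>
    have : Nontrivial (R ⧸ J) := Ideal.Quotient.nontrivial_iff.2 fun h => hJ (by simp [h])
    exact ringKrullDim_nonneg_of_nontrivial
  | succ d ih =>
    obtain ⟨x, hx1, hx2⟩ := exists_regular_of_DE_one _ (h.mono (by omega : 1 ≤ d + 1))
    rw [Ideal.annihilator_quotient] at hx1
    have hx := nzd_of_isSMulRegular hx2
    have h1 := ih (J ⊔ Ideal.span {x}) (by
      rw [sup_assoc, sup_eq_right.2 ((Ideal.span_singleton_le_iff_mem _).2 hx1)]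
      exact hJ) (DE_pred_of_nzd _ hx h)
    refine le_trans ?_ (dim_step J x hx)
    push_cast
    gcongr

lemma DE_top (N : ModuleCat.{u} R) (n : ℕ) : DE N (R ⧸ (⊤ : Ideal R)) n := by
  induction n with
  | zero => exact fun i hi => absurd hi (by simp)
  | succ n ih =>
    refine DE_succ_of_nzd N (x := 0) (Submodule.zero_mem _) (fun _ _ => Submodule.mem_top) ?_
    rw [top_sup_eq]
    exact ih

lemma DE_of_sup_eq_top (m L : Ideal R) (h : L ⊔ m = ⊤) (n : ℕ) :
    DE (ModuleCat.of R (R ⧸ m)) (R ⧸ L) n := by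
  obtain ⟨a, ha, μ, hμ, hsum⟩ := Submodule.mem_sup.1 ((Ideal.eq_top_iff_one _).1 h)
  refine (DE_succ_of_nzd _ (x := μ) (n := n) ?_ (fun f hf => ?_) ?_).mono (Nat.le_succ n)
  · rwa [Ideal.annihilator_quotient]
  · have : f = a * f + μ * f := by rw [← add_mul, hsum, one_mul]
    rw [this]
    exact L.add_mem (L.mul_mem_right _ ha) hf
  · have : L ⊔ Ideal.span {μ} = ⊤ := by
      rw [Ideal.eq_top_iff_one, ← hsum]
      exact Submodule.add_mem_sup ha (Ideal.mem_span_singleton_self μ)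
    rw [this]
    exact DE_top _ n

/-- Multiplication by `h` from `R ⧸ L` to `R ⧸ h L`. -/
def mulMap (h : R) (L : Ideal R) : (R ⧸ L) →ₗ[R] (R ⧸ (Ideal.span {h} * L)) :=
  Submodule.mapQ L _ (LinearMap.lsmul R R h) fun _ hc =>
    Ideal.mul_mem_mul (Ideal.mem_span_singleton_self h) hc

lemma mulMap_mk (h : R) (L : Ideal R) (c : R) :
    mulMap h L (Submodule.Quotient.mk c) = Submodule.Quotient.mk (h * c) := rfl

lemma mulMap_injective [IsDomain R] {h : R} (hh : h ≠ 0) (L : Ideal R) :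
    Function.Injective (mulMap h L) := by
  rw [injective_iff_map_eq_zero]
  intro y hy
  obtain ⟨c, rfl⟩ := Submodule.Quotient.mk_surjective _ y
  rw [mulMap_mk, Submodule.Quotient.mk_eq_zero, Ideal.mem_span_singleton_mul] at hy
  obtain ⟨z, hz, hzc⟩ := hy
  rw [Submodule.Quotient.mk_eq_zero, ← mul_left_cancel₀ hh hzc]
  exact hz

lemma mulMap_exact (h : R) (L : Ideal R) :
    Function.Exact (mulMap h L)
      (Submodule.factor (Ideal.mul_le_left : Ideal.span {h} * L ≤ Ideal.span {h})) := by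
  intro y
  obtain ⟨c, rfl⟩ := Submodule.Quotient.mk_surjective _ y
  have h0 : Submodule.factor (Ideal.mul_le_left : Ideal.span {h} * L ≤ Ideal.span {h})
      (Submodule.Quotient.mk c) = Submodule.Quotient.mk c := rfl
  rw [h0, Submodule.Quotient.mk_eq_zero, Ideal.mem_span_singleton']
  constructor
  · rintro ⟨a, rfl⟩
    exact ⟨Submodule.Quotient.mk a, by rw [mulMap_mk, mul_comm h a]⟩
  · rintro ⟨z, hz⟩
    obtain ⟨a, rfl⟩ := Submodule.Quotient.mk_surjective _ z
    rw [mulMap_mk, Submodule.Quotient.eq] at hz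
    obtain ⟨b, hb⟩ := Ideal.mem_span_singleton'.1 (Ideal.mul_le_left hz)
    exact ⟨a - b, by linear_combination -hb⟩

lemma exists_factor [IsDomain R] [UniqueFactorizationMonoid R] (Q : Ideal R) (hQ : Q ≠ ⊥) :
    ∃ (g : R) (L : Ideal R), g ≠ 0 ∧ Q = Ideal.span {g} * L ∧
      ∃ a ∈ L, ∃ b ∈ L, a ≠ 0 ∧ IsRelPrime a b := by
  classical
  obtain ⟨q, hq, hq0⟩ := Submodule.exists_mem_ne_zero_of_ne_bot hQ
  obtain ⟨c, ⟨g, hqc, hg⟩, hmin⟩ := (wellFounded_dvdNotUnit (α := R)).has_min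
    {c | ∃ g, q = g * c ∧ ∀ f ∈ Q, g ∣ f} ⟨q, 1, by simp, fun f _ => one_dvd f⟩
  have hg0 : g ≠ 0 := by
    rintro rfl
    exact hq0 (by simpa using hqc)
  have hc0 : c ≠ 0 := by
    rintro rfl
    exact hq0 (by simpa using hqc)
  let L : Ideal R := Submodule.comap (LinearMap.lsmul R R g) Q
  have hL : ∀ x, x ∈ L ↔ g * x ∈ Q := fun x => Iff.rfl
  have hcL : c ∈ L := (hL c).2 (hqc ▸ hq)
  refine ⟨g, L, hg0, ?_, c, hcL, ?_⟩
  · apply le_antisymm
    · intro f hf
      obtain ⟨x, rfl⟩ := hg f hf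
      exact Ideal.mul_mem_mul (Ideal.mem_span_singleton_self g) ((hL x).2 hf)
    · intro f hf
      obtain ⟨x, hx, rfl⟩ := Ideal.mem_span_singleton_mul.1 hf
      exact (hL x).1 hx
  · have hnot : ∀ p : R, Prime p → ¬ L ≤ Ideal.span {p} := by
      intro p hp hle
      obtain ⟨c', hc'⟩ := Ideal.mem_span_singleton'.1 (hle hcL)
      refine hmin c' ⟨g * p, by rw [hqc, ← hc']; ring, fun f hf => ?_⟩ ?_
      · obtain ⟨x, rfl⟩ := hg f hf
        exact mul_dvd_mul_left g (Ideal.mem_span_singleton.1 (hle ((hL x).2 hf)))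
      · refine ⟨?_, p, hp.not_isUnit, hc'.symm⟩
        rintro rfl
        exact hc0 (by simpa using hc'.symm)
    have havoid : ¬ (L : Set R) ⊆ ⋃ p ∈ {p | p ∈ UniqueFactorizationMonoid.factors c},
        (Ideal.span {p} : Ideal R) := by
      rw [Ideal.subset_union_prime_finite (Multiset.finite_toSet _) 0 0 fun p hp _ _ =>
        (Ideal.span_singleton_prime (UniqueFactorizationMonoid.prime_of_factor p hp).ne_zero).2
          (UniqueFactorizationMonoid.prime_of_factor p hp)]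
      rintro ⟨p, hp, hle⟩
      exact hnot p (UniqueFactorizationMonoid.prime_of_factor p hp) hle
    obtain ⟨b, hb, hb'⟩ := Set.not_subset.1 havoid
    refine ⟨b, hb, hc0, (UniqueFactorizationMonoid.isRelPrime_iff_no_prime_factors hc0).2 ?_⟩
    intro d hdc hdb hd
    obtain ⟨p, hp, hdp⟩ := UniqueFactorizationMonoid.exists_mem_factors_of_dvd hc0
      hd.irreducible hdc
    apply hb'
    simp only [Set.mem_iUnion]
    exact ⟨p, hp, Ideal.mem_span_singleton.2 (hdp.symm.dvd.trans hdb)⟩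

lemma dim_add_two_le [IsDomain R] [UniqueFactorizationMonoid R] {L : Ideal R} {a b : R}
    (ha : a ∈ L) (hb : b ∈ L) (ha0 : a ≠ 0) (hab : IsRelPrime a b) :
    ringKrullDim (R ⧸ L) + 1 + 1 ≤ ringKrullDim R := by
  have h1 := dim_step (⊥ : Ideal R) a fun f hf => by
    simpa [ha0] using hf
  rw [bot_sup_eq] at h1
  have h2 := dim_step (Ideal.span {a}) b fun f hf => by
    rw [Ideal.mem_span_singleton] at hf ⊢
    exact hab.dvd_of_dvd_mul_left hf
  have h3 : ringKrullDim (R ⧸ L) ≤ ringKrullDim (R ⧸ (Ideal.span {a} ⊔ Ideal.span {b})) :=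
    ringKrullDim_le_of_surjective (Ideal.Quotient.factor (sup_le
      ((Ideal.span_singleton_le_iff_mem _).2 ha) ((Ideal.span_singleton_le_iff_mem _).2 hb)))
      (Ideal.Quotient.factor_surjective _)
  calc ringKrullDim (R ⧸ L) + 1 + 1
      ≤ ringKrullDim (R ⧸ (Ideal.span {a} ⊔ Ideal.span {b})) + 1 + 1 := by gcongr
    _ ≤ ringKrullDim (R ⧸ Ideal.span {a}) + 1 := by gcongr
    _ ≤ ringKrullDim (R ⧸ (⊥ : Ideal R)) := h1
    _ ≤ ringKrullDim R := ringKrullDim_quotient_le _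

end general

variable {K : Type u} [Field K] {r : ℕ}

/-- Vanishing of `Ext^i(S/m, S/J)` for `i < n`. -/
abbrev DM (J : Ideal (MvPolynomial (Fin r) K)) (n : ℕ) : Prop :=
  DE (ModuleCat.of (MvPolynomial (Fin r) K) (MvPolynomial (Fin r) K ⧸ mx (r := r) K))
    (MvPolynomial (Fin r) K ⧸ J) n

lemma mx_prime : (mx (r := r) K).IsPrime := by
  rw [mx_eq (e := Equiv.refl (Fin r))]
  exact isPrime_PF _

lemma depth_le_of_not_DM {J : Ideal (MvPolynomial (Fin r) K)} (hJ : J ≤ mx K) {n : ℕ}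
    (h2 : ¬ DM J (n + 1)) : depth J ≤ n := by
  have hne : J ⊔ mx (r := r) K ≠ ⊤ := by
    rw [sup_eq_right.2 hJ]
    exact mx_prime.ne_top
  refine iSup_le fun rs => iSup_le fun hm => iSup_le fun hreg => ?_
  by_contra hlt
  have hlt' : n + 1 ≤ rs.length := by
    rw [not_le] at hlt
    exact_mod_cast Order.add_one_le_of_lt hlt
  exact h2 (((DE_iff_regular _ _ hne rs.length).2 ⟨rs, rfl, hm, hreg⟩).mono hlt')

lemma depth_eq_of_DM {J : Ideal (MvPolynomial (Fin r) K)} (hJ : J ≤ mx K) {n : ℕ}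
    (h1 : DM J n) (h2 : ¬ DM J (n + 1)) : depth J = n := by
  have hne : J ⊔ mx (r := r) K ≠ ⊤ := by
    rw [sup_eq_right.2 hJ]
    exact mx_prime.ne_top
  refine le_antisymm (depth_le_of_not_DM hJ h2) ?_
  obtain ⟨rs, hlen, hm, hreg⟩ := (DE_iff_regular _ _ hne n).1 h1
  rw [← hlen]
  exact le_iSup₂_of_le rs hm (le_iSup_of_le hreg le_rfl)

lemma dim_poly : ringKrullDim (MvPolynomial (Fin r) K) = r := by
  simp

lemma DM_bot : DM (⊥ : Ideal (MvPolynomial (Fin r) K)) r := by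
  have h := dep_of_up (e := Equiv.refl (Fin r)) (K := K) Finset.univ (U := ∅)
    (fun _ _ _ h => h)
  have h0 : MI (Equiv.refl (Fin r)) K ∅ = ⊥ := by simp [MI]
  rw [Dep, h0] at h
  simpa using h

lemma not_DM_bot : ¬ DM (⊥ : Ideal (MvPolynomial (Fin r) K)) (r + 1) := by
  intro h
  have h1 := le_dim_of_DE _ _ _ (by rw [bot_sup_eq]; exact mx_prime.ne_top) h
  have h2 := h1.trans (ringKrullDim_quotient_le _)
  rw [dim_poly] at h2
  have h3 : r + 1 ≤ r := by exact_mod_cast h2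
  omega

lemma DM_principal {g : MvPolynomial (Fin r) K} (hg : g ≠ 0) {k : ℕ} (hk : k + 1 ≤ r) :
    DM (Ideal.span {g}) k := by
  have h := DE_pred_of_nzd _ (I := ⊥) (x := g) (fun f hf => by simpa [hg] using hf)
    (DM_bot.mono hk)
  rwa [bot_sup_eq] at h

lemma not_DM_principal {g : MvPolynomial (Fin r) K} (hg : g ≠ 0) (hgm : g ∈ mx K) :
    ¬ DM (Ideal.span {g}) r := by
  intro h
  apply not_DM_bot (K := K) (r := r)
  refine DE_succ_of_nzd _ (x := g) ?_ (fun f hf => by simpa [hg] using hf) ?_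
  · rwa [Ideal.annihilator_quotient]
  · rwa [bot_sup_eq]

lemma not_DM_of_coprime {L : Ideal (MvPolynomial (Fin r) K)} (hL : L ⊔ mx K ≠ ⊤)
    {a b : MvPolynomial (Fin r) K} (ha : a ∈ L) (hb : b ∈ L) (ha0 : a ≠ 0)
    (hab : IsRelPrime a b) {d : ℕ} (h : DM L d) : d + 2 ≤ r := by
  have h1 := le_dim_of_DE _ _ _ hL h
  have h2 := dim_add_two_le ha hb ha0 hab
  rw [dim_poly] at h2
  have h3 : ((d : WithBot ℕ∞) + 1 + 1) ≤ r := le_trans (by gcongr) h2
  have h4 : d + 1 + 1 ≤ r := by exact_mod_cast h3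
  omega

theorem dichotomy (Q : Ideal (MvPolynomial (Fin r) K)) (hQ0 : Q ≠ ⊥) (hQm : Q ≤ mx K) :
    (∃ k, k + 1 = r ∧ ∀ t, 1 ≤ t → depth (Q ^ t) = k) ∨
      (∃ k, k + 2 = r ∧ ∀ t, 1 ≤ t → depth (Q ^ t) ≤ k) := by
  obtain ⟨g, L, hg, hQ, a, ha, b, hb, ha0, hab⟩ := exists_factor Q hQ0
  have hpow : ∀ t, Q ^ t = Ideal.span {g ^ t} * L ^ t := fun t => by
    rw [hQ, mul_pow, Ideal.span_singleton_pow]
  have hle : ∀ t, 1 ≤ t → Q ^ t ≤ mx K := fun t ht =>
    (Ideal.pow_le_self (by omega)).trans hQm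
  by_cases hL : L ⊔ mx K = ⊤
  · left
    have hgm : g ∈ mx (r := r) K := by
      rcases (Ideal.IsPrime.mul_le mx_prime).1 (hQ ▸ hQm) with h | h
      · exact (Ideal.span_singleton_le_iff_mem _).1 h
      · rw [sup_eq_right.2 h] at hL
        exact absurd hL mx_prime.ne_top
    have hr : r ≠ 0 := by
      rintro rfl
      exact not_DM_principal hg hgm fun i hi => absurd hi (by simp)
    obtain ⟨k, rfl⟩ : ∃ k, r = k + 1 := ⟨r - 1, by omega⟩
    refine ⟨k, rfl, fun t ht => depth_eq_of_DM (hle t ht) ?_ ?_⟩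
    · rw [hpow]
      exact DE_mid _ _ _ (mulMap_injective (pow_ne_zero t hg) _) (Submodule.factor_surjective _)
        (mulMap_exact _ _) (DE_of_sup_eq_top _ _ (Ideal.pow_sup_eq_top hL) k)
        (DM_principal (pow_ne_zero t hg) le_rfl)
    · rw [hpow]
      intro h
      exact not_DM_principal (pow_ne_zero t hg) (Ideal.pow_mem_of_mem _ hgm t ht)
        (DE_right _ _ _ (mulMap_injective (pow_ne_zero t hg) _) (Submodule.factor_surjective _)
        (mulMap_exact _ _) (DE_of_sup_eq_top _ _ (Ideal.pow_sup_eq_top hL) _) h)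
  · right
    have hr : 0 + 2 ≤ r := not_DM_of_coprime hL ha hb ha0 hab fun i hi => absurd hi (by simp)
    obtain ⟨k, rfl⟩ : ∃ k, r = k + 2 := ⟨r - 2, by omega⟩
    refine ⟨k, rfl, fun t ht => depth_le_of_not_DM (hle t ht) ?_⟩
    rw [hpow]
    intro h
    have h1 : DM (L ^ t) (k + 1) :=
      DE_left _ _ _ (mulMap_injective (pow_ne_zero t hg) _) (Submodule.factor_surjective _)
        (mulMap_exact _ _) h (DM_principal (pow_ne_zero t hg) (by omega))
    have hL' : L ^ t ⊔ mx K ≠ ⊤ := fun h => hL (top_le_iff.1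
      (h ▸ sup_le_sup_right (Ideal.pow_le_self (by omega)) _))
    have := not_DM_of_coprime hL' (Ideal.pow_mem_pow ha t) (Ideal.pow_mem_pow hb t)
      (pow_ne_zero t ha0) hab.pow h1
    omega

lemma le_mx_of_homogeneous {Q : Ideal (MvPolynomial (Fin r) K)} (hQ : IsHomogeneousIdeal Q)
    (hQt : Q ≠ ⊤) : Q ≤ mx K := by
  obtain ⟨G, hG, rfl⟩ := hQ
  rw [Ideal.span_le]
  intro g hg
  obtain ⟨d, hd⟩ := hG g hg
  rw [SetLike.mem_coe, mx, ← Set.image_univ, mem_ideal_span_X_image]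
  intro a ha
  by_contra hcon
  push Not at hcon
  have ha0 : a = 0 := by
    ext i
    simpa using hcon i (Set.mem_univ i)
  subst ha0
  have hd0 : d = 0 := by
    have := hd (mem_support_iff.1 ha)
    simpa using this.symm
  subst hd0
  rw [← totalDegree_zero_iff_isHomogeneous, totalDegree_eq_zero_iff_eq_C] at hd
  apply hQt
  refine Ideal.eq_top_of_isUnit_mem _ (Ideal.subset_span hg) ?_
  rw [hd]
  exact (IsUnit.mk0 _ (mem_support_iff.1 ha)).map C

end Pool.Agent.P.MP_07d438_ag
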