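import Mathlib
import Pool.Agent.P.MP_07d438_ag.Lower

namespace Pool.Agent.P.MP_07d438_ag

open Pool.Agent.P.MP_b90300_al (DE DE_left DE_right DE_succ_of_regular exists_regular_of_DE_one mx)

universe u

section general

variable {R : Type u} [CommRing R]

/-- The subquotient `A ⧸ B` of two ideals. -/
abbrev SQ (A B : Ideal R) : Type u := A ⧸ Submodule.submoduleOf B A

lemma SQ_mk_eq_zero {A B : Ideal R} (a : A) :
    (Submodule.Quotient.mk a : SQ A B) = 0 ↔ (a : R) ∈ B :=
  Submodule.Quotient.mk_eq_zero _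

/-- The projection from `A ⧸ B` to `A ⧸ (B + x A)`. -/
def sqMap (A B : Ideal R) (x : R) : SQ A B →ₗ[R] SQ A (B ⊔ Ideal.span {x} * A) :=
  Submodule.factor (Submodule.comap_mono le_sup_left)

lemma sqMap_surjective (A B : Ideal R) (x : R) : Function.Surjective (sqMap A B x) :=
  Submodule.factor_surjective (Submodule.comap_mono le_sup_left)

lemma sqMap_exact (A B : Ideal R) (x : R) :
    Function.Exact (LinearMap.lsmul R (SQ A B) x) (sqMap A B x) := by
  intro y
  obtain ⟨a, rfl⟩ := Submodule.Quotient.mk_surjective _ y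
  have h0 : sqMap A B x (Submodule.Quotient.mk a) = Submodule.Quotient.mk a := rfl
  rw [h0, SQ_mk_eq_zero]
  constructor
  · intro h
    obtain ⟨b, hb, c, hc, hbc⟩ := Submodule.mem_sup.1 h
    obtain ⟨z, hz, rfl⟩ := Ideal.mem_span_singleton_mul.1 hc
    refine ⟨Submodule.Quotient.mk ⟨z, hz⟩, ?_⟩
    rw [LinearMap.lsmul_apply, ← Submodule.Quotient.mk_smul, ← sub_eq_zero,
      ← Submodule.Quotient.mk_sub, SQ_mk_eq_zero]
    have : ((x • (⟨z, hz⟩ : A) - a : A) : R) = -b := by
      simp only [AddSubgroupClass.coe_sub, SetLike.val_smul, smul_eq_mul]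
      linear_combination hbc
    rw [this]
    exact B.neg_mem hb
  · rintro ⟨z, hz⟩
    obtain ⟨c, rfl⟩ := Submodule.Quotient.mk_surjective _ z
    rw [LinearMap.lsmul_apply, ← Submodule.Quotient.mk_smul, ← sub_eq_zero,
      ← Submodule.Quotient.mk_sub, SQ_mk_eq_zero] at hz
    have : (a : R) = -((x • c - a : A) : R) + x * c := by
      simp only [AddSubgroupClass.coe_sub, SetLike.val_smul, smul_eq_mul]
      ring
    rw [this]
    exact Submodule.add_mem_sup (B.neg_mem hz) (Ideal.mem_span_singleton_mul.2 ⟨c, c.2, rfl⟩)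

lemma sq_injective (A B : Ideal R) {x : R} (hx : ∀ a ∈ A, x * a ∈ B → a ∈ B) :
    Function.Injective (LinearMap.lsmul R (SQ A B) x) := by
  rw [injective_iff_map_eq_zero]
  intro y hy
  obtain ⟨a, rfl⟩ := Submodule.Quotient.mk_surjective _ y
  rw [LinearMap.lsmul_apply, ← Submodule.Quotient.mk_smul, SQ_mk_eq_zero] at hy
  exact (SQ_mk_eq_zero a).2 (hx a a.2 hy)

lemma exists_regular_abstract {S : Type*} [CommRing S] [IsNoetherianRing S] {M : Type*}
    [AddCommGroup M] [Module S M] (A B : Submodule S M) (hA : A.FG) (φ : R →+* S) (m : Ideal R)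
    (h : ∀ f ∈ A, (∀ μ ∈ m, φ μ • f ∈ B) → f ∈ B) :
    ∃ x ∈ m, ∀ f ∈ A, φ x • f ∈ B → f ∈ B := by
  have : Module.Finite S A := Module.Finite.iff_fg.2 hA
  let N := A ⧸ B.submoduleOf A
  have hz : ∀ (x : S) (f : A), x • (Submodule.Quotient.mk f : N) = 0 ↔ x • (f : M) ∈ B := by
    intro x f
    rw [← Submodule.Quotient.mk_smul, Submodule.Quotient.mk_eq_zero]
    rfl
  have hz1 : ∀ f : A, (Submodule.Quotient.mk f : N) = 0 ↔ (f : M) ∈ B := by
    intro f
    have := hz 1 f
    simpa using this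
  have havoid : ¬ (m : Set R) ⊆ ⋃ p ∈ associatedPrimes S N, (p.comap φ : Ideal R) := by
    rw [Ideal.subset_union_prime_finite (associatedPrimes.finite _ _) ⊥ ⊥ fun p hp _ _ =>
      (hp.isPrime).comap _]
    rintro ⟨p, hp, hle⟩
    obtain ⟨hpp, n, rfl⟩ := isAssociatedPrime_iff.1 hp
    obtain ⟨f, rfl⟩ := Submodule.Quotient.mk_surjective _ n
    apply hpp.ne_top
    have h0 : (Submodule.Quotient.mk f : N) = 0 := by
      rw [hz1]
      refine h _ f.2 fun μ hμ => ?_
      have h1 := hle hμ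
      rw [Ideal.mem_comap, Submodule.mem_colon_singleton, Submodule.mem_bot] at h1
      exact (hz _ f).1 h1
    rw [h0]
    simp
  obtain ⟨x, hxm, hx⟩ := Set.not_subset.1 havoid
  refine ⟨x, hxm, fun f hf hxf => ?_⟩
  have hreg : IsSMulRegular N (φ x) := by
    by_contra hn
    have h1 : φ x ∈ ⋃ p ∈ associatedPrimes S N, (p : Set S) := by
      rw [biUnion_associatedPrimes_eq_compl_regular]
      exact hn
    simp only [Set.mem_iUnion] at h1 hx
    exact hx h1
  have h2 : φ x • (Submodule.Quotient.mk ⟨f, hf⟩ : N) = φ x • (0 : N) := by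
    rw [smul_zero, hz]
    exact hxf
  exact (hz1 _).1 (hreg h2)

variable [IsNoetherianRing R] {I : Ideal R}

lemma exists_common_regular (m : Ideal R) (A B : I.Filtration R) (hA : A.Stable)
    (h : ∀ t, ∀ a ∈ A.N t, (∀ μ ∈ m, μ * a ∈ B.N t) → a ∈ B.N t) :
    ∃ x ∈ m, ∀ t, ∀ a ∈ A.N t, x * a ∈ B.N t → a ∈ B.N t := by
  have hfg : A.submodule.FG :=
    (A.submodule_fg_iff_stable fun i => IsNoetherian.noetherian _).2 hA
  have hz : ∀ (x : R) (f : PolynomialModule R R),
      algebraMap R (reesAlgebra I) x • f ∈ B.submodule ↔ ∀ t, x * f.coeff t ∈ B.N t := by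
    intro x f
    rw [algebraMap_smul, Ideal.Filtration.mem_submodule]
    rfl
  obtain ⟨x, hxm, hx⟩ := exists_regular_abstract A.submodule B.submodule hfg
    (algebraMap R (reesAlgebra I)) m
    fun f hf hμ t => h t _ (hf t) fun μ hm => (hz μ f).1 (hμ μ hm) t
  refine ⟨x, hxm, fun t a ha hxa => ?_⟩
  have hf : PolynomialModule.single R t a ∈ A.submodule := by
    intro i
    rw [PolynomialModule.coeff_single, Finsupp.single_apply]
    split_ifs with hi
    · exact hi ▸ ha
    · exact Submodule.zero_mem _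
  have h3 := hx _ hf ((hz _ _).2 fun i => by
    rw [PolynomialModule.coeff_single, Finsupp.single_apply]
    split_ifs with hi
    · exact hi ▸ hxa
    · simp) t
  simpa using h3

/-- The shifted filtration. -/
def shiftF (A : I.Filtration R) (k : ℕ) : I.Filtration R where
  N t := A.N (k + t)
  mono t := A.mono (k + t)
  smul_le t := A.smul_le (k + t)

/-- The socle filtration. -/
def socleF (m : Ideal R) (A B : I.Filtration R) : I.Filtration R where
  N t := A.N t ⊓ (B.N t).colon m
  mono t := inf_le_inf (A.mono t) (Submodule.colon_mono (B.mono t) subset_rfl)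
  smul_le t := by
    refine Submodule.smul_le.2 fun c hc a ha => ⟨A.smul_le t (Submodule.smul_mem_smul hc ha.1), ?_⟩
    refine Submodule.mem_colon.2 fun μ hμ => ?_
    have h1 := B.smul_le t (Submodule.smul_mem_smul hc (Submodule.mem_colon.1 ha.2 μ hμ))
    simpa [mul_assoc] using h1

/-- The filtration `B + x A`. -/
def addF (A B : I.Filtration R) (x : R) : I.Filtration R where
  N t := B.N t ⊔ Ideal.span {x} * A.N t
  mono t := sup_le_sup (B.mono t) (Ideal.mul_mono_right (A.mono t))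
  smul_le t := by
    rw [Submodule.smul_sup]
    refine sup_le_sup (B.smul_le t) ?_
    rw [smul_eq_mul, mul_left_comm]
    exact Ideal.mul_mono_right (A.smul_le t)

theorem eventually_DE (m : Ideal R) (d : ℕ) (A B : I.Filtration R) (hA : A.Stable) (hBA : B ≤ A) :
    (∃ s, ∀ t, s ≤ t → DE (ModuleCat.of R (R ⧸ m)) (SQ (A.N t) (B.N t)) d) ∨
      ∃ s, ∀ t, s ≤ t → ¬ DE (ModuleCat.of R (R ⧸ m)) (SQ (A.N t) (B.N t)) d := by
  induction d generalizing B with
  | zero => exact Or.inl ⟨0, fun t _ i hi => absurd hi (by simp)⟩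
  | succ d ih =>
    obtain ⟨n0, hn0⟩ : (socleF m A B).Stable := hA.of_le fun t => inf_le_left
    by_cases hc : ∃ k, n0 ≤ k ∧ (socleF m A B).N k ≤ B.N k
    · obtain ⟨k, hk, hkB⟩ := hc
      have hall : ∀ t, (socleF m A B).N (k + t) ≤ B.N (k + t) := by
        intro t
        induction t with
        | zero => exact hkB
        | succ t iht =>
          rw [← add_assoc, ← hn0 _ (by omega)]
          exact (Submodule.smul_mono le_rfl iht).trans (B.smul_le _)
      have hst : (shiftF A k).Stable := by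
        obtain ⟨n1, hn1⟩ := hA
        exact ⟨n1, fun n hn => hn1 (k + n) (by omega)⟩
      obtain ⟨x, hxm, hx⟩ := exists_common_regular m (shiftF A k) (shiftF B k) hst
        fun t a ha h => hall t ⟨ha, Submodule.mem_colon.2 fun μ hμ => by
          rw [smul_eq_mul, mul_comm]
          exact h μ hμ⟩
      have hiff : ∀ t, k ≤ t → (DE (ModuleCat.of R (R ⧸ m)) (SQ (A.N t) (B.N t)) (d + 1) ↔
          DE (ModuleCat.of R (R ⧸ m)) (SQ (A.N t) ((addF A B x).N t)) d) := by
        intro t ht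
        obtain ⟨j, rfl⟩ := Nat.exists_eq_add_of_le ht
        have hinj := sq_injective (A.N (k + j)) (B.N (k + j)) (hx j)
        have hex := sqMap_exact (A.N (k + j)) (B.N (k + j)) x
        constructor
        · intro h
          exact DE_right _ _ _ hinj (sqMap_surjective _ _ _) hex h (h.mono (Nat.le_succ d))
        · intro h
          refine DE_succ_of_regular _ x ?_ _ hinj (sqMap_surjective _ _ _) hex h
          rwa [Ideal.annihilator_quotient]
      rcases ih (addF A B x) (fun t => sup_le (hBA t) Ideal.mul_le_right) with ⟨s, hs⟩ | ⟨s, hs⟩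
      · exact Or.inl ⟨max s k, fun t ht => (hiff t (by omega)).2 (hs t (by omega))⟩
      · exact Or.inr ⟨max s k, fun t ht h => hs t (by omega) ((hiff t (by omega)).1 h)⟩
    · refine Or.inr ⟨n0, fun t ht h => hc ⟨t, ht, fun a ha => ?_⟩⟩
      obtain ⟨x, hx1, hx2⟩ := exists_regular_of_DE_one _ (h.mono (by omega : 1 ≤ d + 1))
      rw [Ideal.annihilator_quotient] at hx1
      have h1 : x • (Submodule.Quotient.mk ⟨a, ha.1⟩ : SQ (A.N t) (B.N t)) = x • 0 := by
        rw [smul_zero, ← Submodule.Quotient.mk_smul, SQ_mk_eq_zero]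
        simpa [mul_comm] using Submodule.mem_colon.1 ha.2 x hx1
      exact (SQ_mk_eq_zero _).1 (hx2 h1)

/-- The inclusion of an ideal, seen as the subquotient by zero, into `R ⧸ 0`. -/
def sqIncl (A : Ideal R) : SQ A ⊥ →ₗ[R] R ⧸ (⊥ : Ideal R) :=
  Submodule.mapQ _ _ A.subtype le_rfl

omit [IsNoetherianRing R] in
lemma sqIncl_injective (A : Ideal R) : Function.Injective (sqIncl A) := by
  rw [injective_iff_map_eq_zero]
  intro y hy
  obtain ⟨a, rfl⟩ := Submodule.Quotient.mk_surjective _ y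
  have h0 : sqIncl A (Submodule.Quotient.mk a) = Submodule.Quotient.mk (a : R) := rfl
  rw [h0, Submodule.Quotient.mk_eq_zero] at hy
  exact (SQ_mk_eq_zero a).2 hy

omit [IsNoetherianRing R] in
lemma sqIncl_exact (A : Ideal R) :
    Function.Exact (sqIncl A) (Submodule.factor (bot_le : (⊥ : Ideal R) ≤ A)) := by
  intro y
  obtain ⟨c, rfl⟩ := Submodule.Quotient.mk_surjective _ y
  have h0 : Submodule.factor (bot_le : (⊥ : Ideal R) ≤ A) (Submodule.Quotient.mk c) =
      Submodule.Quotient.mk c := rfl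
  rw [h0, Submodule.Quotient.mk_eq_zero]
  constructor
  · intro h
    exact ⟨Submodule.Quotient.mk ⟨c, h⟩, rfl⟩
  · rintro ⟨z, hz⟩
    obtain ⟨a, rfl⟩ := Submodule.Quotient.mk_surjective _ z
    have h1 : sqIncl A (Submodule.Quotient.mk a) = Submodule.Quotient.mk (a : R) := rfl
    rw [h1, Submodule.Quotient.eq, Ideal.mem_bot, sub_eq_zero] at hz
    exact hz ▸ a.2

end general

variable {K : Type u} [Field K] {r : ℕ}

lemma eventually_DM (Q : Ideal (MvPolynomial (Fin r) K)) {d : ℕ} (hd : d + 1 ≤ r) :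
    (∃ s, ∀ t, s ≤ t → DM (Q ^ t) d) ∨ ∃ s, ∀ t, s ≤ t → ¬ DM (Q ^ t) d := by
  have hiff : ∀ J : Ideal (MvPolynomial (Fin r) K), DM J d ↔
      DE (ModuleCat.of (MvPolynomial (Fin r) K) (MvPolynomial (Fin r) K ⧸ mx (r := r) K))
        (SQ J ⊥) (d + 1) := fun J =>
    ⟨fun h => DE_left _ _ _ (sqIncl_injective J) (Submodule.factor_surjective _) (sqIncl_exact J)
      (DM_bot.mono hd) h,
    fun h => DE_right _ _ _ (sqIncl_injective J) (Submodule.factor_surjective _) (sqIncl_exact J)
      h (DM_bot.mono (by omega))⟩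
  have h := eventually_DE (mx (r := r) K) (d + 1) (Q.stableFiltration ⊤) ⊥
    (Q.stableFiltration_stable ⊤) bot_le
  have hN : ∀ t, (Q.stableFiltration ⊤).N t = Q ^ t := fun t => by simp
  have hB : ∀ t, (⊥ : Q.Filtration (MvPolynomial (Fin r) K)).N t = ⊥ := fun _ => rfl
  simp only [hiff]
  rcases h with ⟨s, hs⟩ | ⟨s, hs⟩
  · exact Or.inl ⟨s, fun t ht => by have := hs t ht; rwa [hN, hB] at this⟩
  · exact Or.inr ⟨s, fun t ht => by have := hs t ht; rwa [hN, hB] at this⟩

lemma DM_of_le_depth {J : Ideal (MvPolynomial (Fin r) K)} (hJ : J ≤ mx K) {n : ℕ}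
    (h : (n : ℕ∞) ≤ depth J) : DM J n := by
  rcases n with _ | n
  · exact fun i hi => absurd hi (by simp)
  · by_contra hn
    have h1 := h.trans (depth_le_of_not_DM hJ hn)
    have h2 : n + 1 ≤ n := by exact_mod_cast h1
    omega

lemma le_depth_of_DM {J : Ideal (MvPolynomial (Fin r) K)} (hJ : J ≤ mx K) {n : ℕ}
    (h1 : DM J n) : (n : ℕ∞) ≤ depth J := by
  have hne : J ⊔ mx (r := r) K ≠ ⊤ := by
    rw [sup_eq_right.2 hJ]
    exact mx_prime.ne_top
  obtain ⟨rs, hlen, hm, hreg⟩ := (Pool.Agent.P.MP_b90300_al.DE_iff_regular _ _ hne n).1 h1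
  rw [← hlen]
  exact le_iSup₂_of_le rs hm (le_iSup_of_le hreg le_rfl)

lemma lt_of_realized {f : ℕ → ℕ} (h : RealizedIn K r f) (t : ℕ) (ht : 1 ≤ t) : f t + 1 ≤ r := by
  obtain ⟨Q, hQ, hQt, hQ0, hd⟩ := h
  rcases dichotomy Q hQ0 (le_mx_of_homogeneous hQ hQt) with ⟨k, hk, h⟩ | ⟨k, hk, h⟩
  · have : f t = k := by exact_mod_cast (hd t ht).symm.trans (h t ht)
    omega
  · have : f t ≤ k := by exact_mod_cast (hd t ht).symm.le.trans (h t ht)
    omega

/-- Brodmann's theorem: depth functions of powers are convergent. -/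
theorem convergent_of_realized {f : ℕ → ℕ} (h : RealizedIn K r f) :
    ∃ t₀, 1 ≤ t₀ ∧ ∀ t, t₀ ≤ t → f t = f t₀ := by
  have hlt := lt_of_realized h
  obtain ⟨Q, hQ, hQt, hQ0, hd⟩ := h
  have hQm := le_mx_of_homogeneous hQ hQt
  have hle : ∀ t, 1 ≤ t → Q ^ t ≤ mx K := fun t ht => (Ideal.pow_le_self (by omega)).trans hQm
  have hiff : ∀ t, 1 ≤ t → ∀ d, DM (Q ^ t) d ↔ d ≤ f t := fun t ht d =>
    ⟨fun h => by exact_mod_cast (le_depth_of_DM (hle t ht) h).trans (hd t ht).le,
      fun h => DM_of_le_depth (hle t ht) (by rw [hd t ht]; exact_mod_cast h)⟩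
  have key : ∀ d, ∃ s, 1 ≤ s ∧ ∀ t, s ≤ t → min (f t) d = min (f s) d := by
    intro d
    induction d with
    | zero => exact ⟨1, le_rfl, fun t _ => by simp⟩
    | succ d ih =>
      obtain ⟨s, hs, h⟩ := ih
      by_cases hd : d + 1 + 1 ≤ r
      · rcases eventually_DM Q hd with ⟨s', h'⟩ | ⟨s', h'⟩
        · refine ⟨max s s', by omega, fun t ht => ?_⟩
          have h1 := (hiff t (by omega) _).1 (h' t (by omega))
          have h2 := (hiff (max s s') (by omega) _).1 (h' _ (by omega))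
          omega
        · refine ⟨max s s', by omega, fun t ht => ?_⟩
          have h1 := mt (hiff t (by omega) _).2 (h' t (by omega))
          have h2 := mt (hiff (max s s') (by omega) _).2 (h' _ (by omega))
          have h3 := h t (by omega)
          have h4 := h (max s s') (by omega)
          omega
      · refine ⟨s, hs, fun t ht => ?_⟩
        have h1 := hlt t (by omega)
        have h2 := hlt s hs
        have h3 := h t ht
        omega
  obtain ⟨s, hs, h⟩ := key r
  refine ⟨s, hs, fun t ht => ?_⟩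
  have h1 := hlt t (by omega)
  have h2 := hlt s hs
  have h3 := h t ht
  omega

end Pool.Agent.P.MP_07d438_ag
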