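import Mathlib

namespace Pool.Agent.P.MP_07d438_ag

variable (m t0 : ℕ)

/-- The number of residue classes. -/
def AA : ℕ := (t0 + 1) * (m + 1)

/-- The block index of a position. -/
def idx (p : ℕ) : ℕ := p / AA m t0

/-- The time label of a position. -/
def tau (p : ℕ) : ℕ := p % AA m t0 / (m + 1)

/-- The variable label of a position. -/
def jj (p : ℕ) : ℕ := p % AA m t0 % (m + 1)

/-- The position with given labels. -/
def pos (τ j i : ℕ) : ℕ := τ * (m + 1) + j + AA m t0 * i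

/-- Half of the width of the window. -/
def BB : ℕ := AA m t0 * (t0 + 2)

/-- The weight of the lowest part of the `t`-th power. -/
def lv (t : ℕ) : ℕ := 8 * (BB m t0 * t)

variable {m t0}

lemma lt_AA : m < AA m t0 := by
  unfold AA
  nlinarith [Nat.zero_le (t0 * (m + 1))]

lemma AA_pos : 0 < AA m t0 := lt_of_le_of_lt (Nat.zero_le _) lt_AA

lemma AA_le_BB : 2 * AA m t0 ≤ BB m t0 := by
  unfold BB
  nlinarith [Nat.zero_le (AA m t0 * t0)]

lemma lv_add (s t : ℕ) : lv m t0 (s + t) = lv m t0 s + lv m t0 t := by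
  unfold lv
  ring

lemma lv_one : lv m t0 1 = 8 * BB m t0 := by
  simp [lv]

lemma lv_ge {t : ℕ} (ht : 1 ≤ t) : 8 * BB m t0 ≤ lv m t0 t := by
  unfold lv
  nlinarith [Nat.zero_le (BB m t0)]

lemma lv_even (t : ℕ) : ∃ k, lv m t0 t = 8 * k := ⟨_, rfl⟩

lemma idx_add (p l : ℕ) : idx m t0 (AA m t0 * l + p) = idx m t0 p + l := by
  unfold idx
  rw [add_comm, Nat.add_mul_div_left _ _ AA_pos]

lemma tau_add (p l : ℕ) : tau m t0 (AA m t0 * l + p) = tau m t0 p := by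
  unfold tau
  rw [add_comm, Nat.add_mul_mod_self_left]

lemma jj_add (p l : ℕ) : jj m t0 (AA m t0 * l + p) = jj m t0 p := by
  unfold jj
  rw [add_comm, Nat.add_mul_mod_self_left]

lemma jj_le (p : ℕ) : jj m t0 p ≤ m := Nat.lt_succ_iff.1 (Nat.mod_lt _ (Nat.succ_pos m))

lemma tau_le (p : ℕ) : tau m t0 p ≤ t0 := by
  unfold tau
  apply Nat.lt_succ_iff.1
  rw [Nat.div_lt_iff_lt_mul (Nat.succ_pos m)]
  exact Nat.mod_lt _ AA_pos

lemma pos_eq (p : ℕ) : pos m t0 (tau m t0 p) (jj m t0 p) (idx m t0 p) = p := by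
  unfold pos tau jj idx
  have h1 := Nat.mod_add_div p (AA m t0)
  have h2 := Nat.div_add_mod' (p % AA m t0) (m + 1)
  omega

lemma cls_lt {τ j : ℕ} (hτ : τ ≤ t0) (hj : j ≤ m) : τ * (m + 1) + j < AA m t0 := by
  unfold AA
  nlinarith [Nat.mul_le_mul_right (m + 1) hτ]

lemma idx_pos {τ j : ℕ} (hτ : τ ≤ t0) (hj : j ≤ m) (i : ℕ) : idx m t0 (pos m t0 τ j i) = i := by
  unfold pos
  rw [add_comm, idx_add, idx, Nat.div_eq_of_lt (cls_lt hτ hj), zero_add]

lemma tau_pos {τ j : ℕ} (hτ : τ ≤ t0) (hj : j ≤ m) (i : ℕ) : tau m t0 (pos m t0 τ j i) = τ := by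
  unfold pos
  rw [add_comm, tau_add, tau, Nat.mod_eq_of_lt (cls_lt hτ hj), add_comm,
    Nat.add_mul_div_right _ _ (Nat.succ_pos m), Nat.div_eq_of_lt (Nat.lt_succ_of_le hj), zero_add]

lemma jj_pos {τ j : ℕ} (hτ : τ ≤ t0) (hj : j ≤ m) (i : ℕ) : jj m t0 (pos m t0 τ j i) = j := by
  unfold pos
  rw [add_comm, jj_add, jj, Nat.mod_eq_of_lt (cls_lt hτ hj), add_comm,
    Nat.add_mul_mod_self_right, Nat.mod_eq_of_lt (Nat.lt_succ_of_le hj)]

lemma tie_eq (p : ℕ) :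
    p + (AA m t0 - jj m t0 p) = pos m t0 (tau m t0 p) 0 (idx m t0 p + 1) := by
  have h1 := pos_eq (m := m) (t0 := t0) p
  have h2 := jj_le (m := m) (t0 := t0) p
  have h3 := lt_AA (m := m) (t0 := t0)
  unfold pos at h1 ⊢
  rw [mul_add (AA m t0), mul_one]
  omega

lemma idx_tie (p : ℕ) : idx m t0 (p + (AA m t0 - jj m t0 p)) = idx m t0 p + 1 := by
  rw [tie_eq, idx_pos (tau_le p) (Nat.zero_le _)]

lemma tau_tie (p : ℕ) : tau m t0 (p + (AA m t0 - jj m t0 p)) = tau m t0 p := by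
  rw [tie_eq, tau_pos (tau_le p) (Nat.zero_le _)]

lemma jj_tie (p : ℕ) : jj m t0 (p + (AA m t0 - jj m t0 p)) = 0 := by
  rw [tie_eq, jj_pos (tau_le p) (Nat.zero_le _)]

lemma idx_super (p q : ℕ) : idx m t0 p + idx m t0 q ≤ idx m t0 (p + q) :=
  Nat.div_add_div_le_add_div

lemma le_idx_iff (p : ℕ) : 2 * (t0 + 2) ≤ idx m t0 p ↔ 2 * BB m t0 ≤ p := by
  unfold idx BB
  rw [Nat.le_div_iff_mul_le AA_pos]
  have : 2 * (t0 + 2) * AA m t0 = 2 * (AA m t0 * (t0 + 2)) := by ring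
  rw [this]

lemma low_eq {p : ℕ} (h1 : tau m t0 p = 0) (h2 : jj m t0 p = 0) : p = AA m t0 * idx m t0 p := by
  have h := pos_eq (m := m) (t0 := t0) p
  rw [h1, h2] at h
  simpa [pos] using h.symm

lemma idx_zero : idx m t0 0 = 0 := by simp [idx]

lemma tau_zero : tau m t0 0 = 0 := by simp [tau]

lemma jj_zero : jj m t0 0 = 0 := by simp [jj]

lemma AA_le_of_idx {p : ℕ} (h : 1 ≤ idx m t0 p) : AA m t0 ≤ p := by
  unfold idx at h
  rw [Nat.le_div_iff_mul_le AA_pos] at h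
  simpa using h

end Pool.Agent.P.MP_07d438_ag
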