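import Mathlib
import Pool.Agent.P.MP_07d438_ag.Lower

open MvPolynomial

namespace Pool.Agent.P.MP_07d438_ag

open Pool.Agent.P.MP_b90300_al (DE DE_succ_of_nzd DE_pred_of_nzd
  exists_regular_of_DE_one mx mx_eq MI Up MI_var MI_union nzd_var up_var MI_PF_le PF ex mon
  ex_mon ex_add ex_injective ex_single monomial_mem_MI mem_MI)

universe u

variable {V : Type} {r : ℕ} (e : V ≃ Fin r) (K : Type u) [Field K]

/-- The monomial with exponent vector `b`. -/
noncomputable def mn (b : V → ℕ) : MvPolynomial (Fin r) K := monomial (mon e b) 1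

variable {e K}

lemma mon_ex (a : Fin r →₀ ℕ) : mon e (ex e a) = a := ex_injective e (by simp)

lemma mn_add (a b : V → ℕ) : mn e K (a + b) = mn e K a * mn e K b := by
  have : mon e (a + b) = mon e a + mon e b := ex_injective e (by simp)
  simp [mn, this, monomial_mul]

lemma mn_single [DecidableEq V] (x : V) (c : ℕ) : mn e K (Pi.single x c) = X (e x) ^ c := by
  have : mon e (Pi.single x c) = Finsupp.single (e x) c := ex_injective e (by simp [ex_single])
  rw [mn, this, X_pow_eq_monomial]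

lemma mn_mem_MI {U : Set (V → ℕ)} (hU : Up ∅ U) {a : V → ℕ} : mn e K a ∈ MI e K U ↔ a ∈ U := by
  rw [mn, monomial_mem_MI hU, ex_mon]

lemma mn_ne_zero (a : V → ℕ) : mn e K a ≠ 0 := by
  simp [mn]

lemma mn_homogeneous [Fintype V] (a : V → ℕ) : (mn e K a).IsHomogeneous (∑ x, a x) := by
  apply isHomogeneous_monomial
  rw [Finsupp.degree_eq_sum, ← Equiv.sum_comp e]
  exact Finset.sum_congr rfl fun x _ => congrFun (ex_mon e a) x

lemma mem_of_mn (P : Submodule K (MvPolynomial (Fin r) K)) (f : MvPolynomial (Fin r) K)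
    (h : ∀ a ∈ f.support, mn e K (ex e a) ∈ P) : f ∈ P := by
  rw [f.as_sum]
  refine P.sum_mem fun a ha => ?_
  have : monomial a (coeff a f) = coeff a f • mn e K (ex e a) := by
    rw [mn, mon_ex, smul_monomial, smul_eq_mul, mul_one]
  rw [this]
  exact P.smul_mem _ (h a ha)

lemma lin_ext {φ ψ : MvPolynomial (Fin r) K →ₗ[K] MvPolynomial (Fin r) K}
    (h : ∀ a, φ (mn e K a) = ψ (mn e K a)) : φ = ψ := by
  refine LinearMap.ext fun f => ?_
  exact mem_of_mn (e := e) (LinearMap.eqLocus φ ψ) f fun a _ => h _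

section rel

variable (θ : MvPolynomial (Fin r) K →ₗ[K] MvPolynomial (Fin r) K)

/-- The ideal `J` corresponds, under the linear map `θ`, to the monomial ideal attached to `U`. -/
def Rel (e : V ≃ Fin r) (J : Ideal (MvPolynomial (Fin r) K)) (U : Set (V → ℕ)) : Prop :=
  ∀ f, f ∈ J ↔ θ f ∈ MI e K U

variable {θ}

lemma Rel.step [DecidableEq V] (hs : Function.Surjective θ) {y : V}
    (hy : ∀ f, θ (X (e y) * f) = X (e y) * θ f) {J : Ideal (MvPolynomial (Fin r) K)}
    {U : Set (V → ℕ)} (h : Rel θ e J U) :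
    Rel θ e (J ⊔ Ideal.span {X (e y)}) (U ∪ {a | a y ≠ 0}) := by
  intro f
  rw [MI_union, MI_var]
  constructor
  · intro hf
    obtain ⟨g, hg, b, hb, rfl⟩ := Submodule.mem_sup.1 hf
    obtain ⟨c, rfl⟩ := Ideal.mem_span_singleton'.1 hb
    rw [map_add, mul_comm, hy]
    exact Submodule.add_mem_sup ((h g).1 hg)
      (Ideal.mul_mem_right _ _ (Ideal.mem_span_singleton_self _))
  · intro hf
    obtain ⟨g, hg, b, hb, hgb⟩ := Submodule.mem_sup.1 hf
    obtain ⟨c, rfl⟩ := Ideal.mem_span_singleton'.1 hb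
    obtain ⟨c, rfl⟩ := hs c
    have h1 : f - X (e y) * c ∈ J := by
      rw [h, map_sub, hy, ← hgb]
      convert hg using 1
      ring
    have h2 : f = (f - X (e y) * c) + X (e y) * c := by ring
    rw [h2]
    exact Submodule.add_mem_sup h1 (Ideal.mul_mem_right _ _ (Ideal.mem_span_singleton_self _))

lemma Rel.nzd [DecidableEq V] {y : V}
    (hy : ∀ f, θ (X (e y) * f) = X (e y) * θ f) {J : Ideal (MvPolynomial (Fin r) K)}
    {U : Set (V → ℕ)} (h : Rel θ e J U) {F : Set V} (hU : Up F U) (hyF : y ∈ F)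
    (f : MvPolynomial (Fin r) K) (hf : X (e y) * f ∈ J) : f ∈ J := by
  rw [h, hy] at hf
  exact (h f).2 (nzd_var hU hyF _ hf)

lemma Rel.dm [DecidableEq V] (hs : Function.Surjective θ) (Y : Finset V)
    (hY : ∀ y ∈ Y, ∀ f, θ (X (e y) * f) = X (e y) * θ f) {J : Ideal (MvPolynomial (Fin r) K)}
    {U : Set (V → ℕ)} (h : Rel θ e J U) (hU : Up (Y : Set V) U) : DM J Y.card := by
  induction Y using Finset.induction_on generalizing U J with
  | empty => exact fun i hi => absurd hi (by simp)
  | insert y Y hy ih =>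
    have h1 : Up (Y : Set V) (U ∪ {a | a y ≠ 0}) :=
      (hU.mono (by simp [Set.subset_insert])).union (up_var (by simpa using hy))
    have hy' := hY y (Finset.mem_insert_self _ _)
    have h2 := ih (fun z hz => hY z (Finset.mem_insert_of_mem hz)) (h.step hs hy') h1
    rw [Finset.card_insert_of_notMem hy]
    refine DE_succ_of_nzd _ ?_ (h.nzd hy' hU (by simp)) h2
    rw [Ideal.annihilator_quotient]
    exact Ideal.subset_span ⟨e y, rfl⟩

lemma Rel.not_dm [DecidableEq V] (hs : Function.Surjective θ) (Y : Finset V)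
    (hY : ∀ y ∈ Y, ∀ f, θ (X (e y) * f) = X (e y) * θ f) {J : Ideal (MvPolynomial (Fin r) K)}
    {U : Set (V → ℕ)} (h : Rel θ e J U) (hU : Up (Y : Set V) U) {a : V → ℕ}
    (hθ : θ (mn e K a) = mn e K a) (ha : a ∉ U) (haY : ∀ y ∈ Y, a y = 0)
    (hsoc : ∀ x, x ∉ Y → ∃ c, X (e x) ^ c * mn e K a ∈ J) : ¬ DM J (Y.card + 1) := by
  induction Y using Finset.induction_on generalizing U J with
  | empty =>
    intro hd
    obtain ⟨s, hs1, hs2⟩ := exists_regular_of_DE_one _ hd
    rw [Ideal.annihilator_quotient, mx_eq (e := e)] at hs1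
    have hrad : MI e K (PF ∅) ≤ Ideal.radical (Submodule.comap
        (LinearMap.toSpanSingleton (MvPolynomial (Fin r) K) (MvPolynomial (Fin r) K) (mn e K a))
        J) := by
      refine MI_PF_le fun x _ => ?_
      obtain ⟨c, hc⟩ := hsoc x (by simp)
      exact ⟨c, hc⟩
    obtain ⟨n, hn⟩ := hrad hs1
    have h4 := nzd_of_isSMulRegular (hs2.pow n) _ hn
    rw [h, hθ, mn_mem_MI hU.empty] at h4
    exact ha h4
  | insert y Y hy ih =>
    intro hd
    have h1 : Up (Y : Set V) (U ∪ {a | a y ≠ 0}) :=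
      (hU.mono (by simp [Set.subset_insert])).union (up_var (by simpa using hy))
    have hy' := hY y (Finset.mem_insert_self _ _)
    rw [Finset.card_insert_of_notMem hy] at hd
    have h2 := DE_pred_of_nzd _ (h.nzd hy' hU (by simp)) hd
    refine ih (fun z hz => hY z (Finset.mem_insert_of_mem hz)) (h.step hs hy') h1 ?_
      (fun z hz => haY z (Finset.mem_insert_of_mem hz)) ?_ h2
    · rintro (h3 | h3)
      · exact ha h3
      · exact h3 (haY y (Finset.mem_insert_self _ _))
    · intro x hx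
      by_cases hxy : x = y
      · subst hxy
        refine ⟨1, Ideal.mem_sup_right ?_⟩
        rw [pow_one]
        exact Ideal.mul_mem_right _ _ (Ideal.mem_span_singleton_self _)
      · obtain ⟨c, hc⟩ := hsoc x (by simp [hx, hxy])
        exact ⟨c, Ideal.mem_sup_left hc⟩

end rel

section nu

open Classical in
/-- The linear map sending the monomial of exponent `a ∈ E` to that of exponent `sh a`, and all
other monomials to zero. -/
noncomputable def nu (e : V ≃ Fin r) (K : Type u) [Field K] (E : Set (V → ℕ))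
    (sh : (V → ℕ) → (V → ℕ)) : MvPolynomial (Fin r) K →ₗ[K] MvPolynomial (Fin r) K :=
  (basisMonomials (Fin r) K).constr K fun a => if ex e a ∈ E then mn e K (sh (ex e a)) else 0

variable {E : Set (V → ℕ)} {sh : (V → ℕ) → (V → ℕ)}

lemma nu_mem {a : V → ℕ} (ha : a ∈ E) : nu e K E sh (mn e K a) = mn e K (sh a) := by
  have h : mn e K a = basisMonomials (Fin r) K (mon e a) := rfl
  rw [h, nu, Module.Basis.constr_basis, ex_mon, if_pos ha]

lemma nu_not_mem {a : V → ℕ} (ha : a ∉ E) : nu e K E sh (mn e K a) = 0 := by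
  have h : mn e K a = basisMonomials (Fin r) K (mon e a) := rfl
  rw [h, nu, Module.Basis.constr_basis, ex_mon, if_neg ha]

lemma nu_nu (hsh : ∀ a ∈ E, sh a ∉ E) (f : MvPolynomial (Fin r) K) :
    nu e K E sh (nu e K E sh f) = 0 := by
  have : (nu e K E sh).comp (nu e K E sh) = 0 := by
    refine lin_ext (e := e) fun a => ?_
    by_cases ha : a ∈ E
    · rw [LinearMap.comp_apply, nu_mem ha, nu_not_mem (hsh a ha), LinearMap.zero_apply]
    · rw [LinearMap.comp_apply, nu_not_mem ha, map_zero, LinearMap.zero_apply]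
  exact LinearMap.congr_fun this f

lemma nu_X_mul [DecidableEq V] {y : V} (h1 : ∀ a, Pi.single y 1 + a ∈ E ↔ a ∈ E)
    (h2 : ∀ a ∈ E, sh (Pi.single y 1 + a) = Pi.single y 1 + sh a) (f : MvPolynomial (Fin r) K) :
    nu e K E sh (X (e y) * f) = X (e y) * nu e K E sh f := by
  have hX : (X (e y) : MvPolynomial (Fin r) K) = mn e K (Pi.single y 1) := by
    rw [mn_single, pow_one]
  have : (nu e K E sh).comp (LinearMap.mulLeft K (X (e y))) =
      (LinearMap.mulLeft K (X (e y))).comp (nu e K E sh) := by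
    refine lin_ext (e := e) fun a => ?_
    simp only [LinearMap.comp_apply, LinearMap.mulLeft_apply]
    rw [hX, ← mn_add]
    by_cases ha : a ∈ E
    · rw [nu_mem ha, nu_mem ((h1 a).2 ha), h2 a ha, mn_add]
    · rw [nu_not_mem ha, nu_not_mem (fun h => ha ((h1 a).1 h)), mul_zero]
  exact LinearMap.congr_fun this f

/-- The unipotent change of basis. -/
noncomputable def th (e : V ≃ Fin r) (K : Type u) [Field K] (E : Set (V → ℕ))
    (sh : (V → ℕ) → (V → ℕ)) : MvPolynomial (Fin r) K →ₗ[K] MvPolynomial (Fin r) K :=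
  LinearMap.id - nu e K E sh

lemma th_apply (f : MvPolynomial (Fin r) K) : th e K E sh f = f - nu e K E sh f := rfl

lemma th_surjective (hsh : ∀ a ∈ E, sh a ∉ E) : Function.Surjective (th e K E sh) := by
  intro f
  refine ⟨f + nu e K E sh f, ?_⟩
  rw [th_apply, map_add, nu_nu hsh]
  ring

lemma th_not_mem {a : V → ℕ} (ha : a ∉ E) : th e K E sh (mn e K a) = mn e K a := by
  rw [th_apply, nu_not_mem ha, sub_zero]

lemma th_mem (hsh : ∀ a ∈ E, sh a ∉ E) {a : V → ℕ} (ha : a ∈ E) :
    th e K E sh (mn e K a + mn e K (sh a)) = mn e K a := by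
  rw [th_apply, map_add, nu_mem ha, nu_not_mem (hsh a ha)]
  ring

lemma th_X_mul [DecidableEq V] {y : V} (h1 : ∀ a, Pi.single y 1 + a ∈ E ↔ a ∈ E)
    (h2 : ∀ a ∈ E, sh (Pi.single y 1 + a) = Pi.single y 1 + sh a) (f : MvPolynomial (Fin r) K) :
    th e K E sh (X (e y) * f) = X (e y) * th e K E sh f := by
  rw [th_apply, th_apply, nu_X_mul h1 h2, mul_sub]

/-- The standard generators: monomials and binomials. -/
def Gen (e : V ≃ Fin r) (K : Type u) [Field K] (E : Set (V → ℕ)) (sh : (V → ℕ) → (V → ℕ))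
    (U : Set (V → ℕ)) : Set (MvPolynomial (Fin r) K) :=
  {g | (∃ a ∈ U, a ∉ E ∧ g = mn e K a) ∨ ∃ a ∈ E, g = mn e K a + mn e K (sh a)}

/-- The inverse change of basis. -/
noncomputable def sg (e : V ≃ Fin r) (K : Type u) [Field K] (E : Set (V → ℕ))
    (sh : (V → ℕ) → (V → ℕ)) : MvPolynomial (Fin r) K →ₗ[K] MvPolynomial (Fin r) K :=
  LinearMap.id + nu e K E sh

lemma sg_apply (f : MvPolynomial (Fin r) K) : sg e K E sh f = f + nu e K E sh f := rfl

lemma sg_th (hsh : ∀ a ∈ E, sh a ∉ E) (f : MvPolynomial (Fin r) K) :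
    sg e K E sh (th e K E sh f) = f := by
  have h1 : nu e K E sh (th e K E sh f) = nu e K E sh f := by
    rw [th_apply, map_sub, nu_nu hsh, sub_zero]
  rw [sg_apply, h1, th_apply, sub_add_cancel]

lemma th_ind (hsh : ∀ a ∈ E, sh a ∉ E) {U : Set (V → ℕ)} (hU : Up ∅ U)
    (P : Submodule K (MvPolynomial (Fin r) K)) (hP : Gen e K E sh U ⊆ P)
    (f : MvPolynomial (Fin r) K) (hf : th e K E sh f ∈ MI e K U) : f ∈ P := by
  have h2 : th e K E sh f ∈ P.comap (sg e K E sh) := by
    refine mem_of_mn (e := e) _ _ fun a ha => ?_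
    have haU := (mem_MI hU).1 hf a ha
    rw [Submodule.mem_comap, sg_apply]
    by_cases hE : ex e a ∈ E
    · rw [nu_mem hE]
      exact hP (Or.inr ⟨_, hE, rfl⟩)
    · rw [nu_not_mem hE, add_zero]
      exact hP (Or.inl ⟨_, haU, hE, rfl⟩)
  rwa [Submodule.mem_comap, sg_th hsh] at h2

lemma th_gen (hsh : ∀ a ∈ E, sh a ∉ E) {U : Set (V → ℕ)} (hU : Up ∅ U) (hEU : E ⊆ U)
    {g : MvPolynomial (Fin r) K} (hg : g ∈ Gen e K E sh U) : th e K E sh g ∈ MI e K U := by
  rcases hg with ⟨a, ha, hE, rfl⟩ | ⟨a, ha, rfl⟩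
  · rw [th_not_mem hE]
    exact (mn_mem_MI hU).2 ha
  · rw [th_mem hsh ha]
    exact (mn_mem_MI hU).2 (hEU ha)

/-- If the span of the standard generators is stable under the variables, the ideal they generate
corresponds to the monomial ideal. -/
theorem rel_span (hsh : ∀ a ∈ E, sh a ∉ E) {U : Set (V → ℕ)} (hU : Up ∅ U) (hEU : E ⊆ U)
    (hX : ∀ x, ∀ g ∈ Gen e K E sh U, th e K E sh (X (e x) * g) ∈ MI e K U) :
    Rel (th e K E sh) e (Ideal.span (Gen e K E sh U)) U := by
  intro f
  constructor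
  · intro hf
    have hX' : ∀ s f, th e K E sh f ∈ MI e K U → th e K E sh (X s * f) ∈ MI e K U := by
      intro s f hf
      refine th_ind hsh hU (((MI e K U).restrictScalars K).comap
        ((th e K E sh).comp (LinearMap.mulLeft K (X s)))) (fun g hg => ?_) f hf
      have := hX (e.symm s) g hg
      rwa [Equiv.apply_symm_apply] at this
    have hmul : ∀ c f, th e K E sh f ∈ MI e K U → th e K E sh (c * f) ∈ MI e K U := by
      intro c
      induction c using MvPolynomial.induction_on with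
      | C k =>
        intro f hf
        rw [C_mul', map_smul]
        exact ((MI e K U).restrictScalars K).smul_mem k hf
      | add p q hp hq =>
        intro f hf
        rw [add_mul, map_add]
        exact Ideal.add_mem _ (hp f hf) (hq f hf)
      | mul_X p s hp =>
        intro f hf
        rw [mul_assoc]
        exact hp _ (hX' s f hf)
    induction hf using Submodule.span_induction with
    | mem g hg => exact th_gen hsh hU hEU hg
    | zero => simp
    | add p q _ _ hp hq =>
      rw [map_add]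
      exact Ideal.add_mem _ hp hq
    | smul c p _ hp => exact hmul c p hp
  · exact th_ind hsh hU ((Ideal.span (Gen e K E sh U)).restrictScalars K) Ideal.subset_span f

end nu

end Pool.Agent.P.MP_07d438_ag
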