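import Mathlib
import Pool.Agent.P.MP_07d438_ag.Twist
import Pool.Agent.P.MP_07d438_ag.Pos

open MvPolynomial

namespace Pool.Agent.P.MP_07d438_ag

open Pool.Agent.P.MP_b90300_al (MI Up)

universe u

/-- The variables: `none` is `x`, `some none` is `y`, and `some (some i)` is `z_i`. -/
abbrev W (m : ℕ) : Type := Option (Option (Fin m))

variable {m : ℕ} (t0 : ℕ) (rr : ℕ → ℕ)

/-- The weight of an exponent vector. -/
def wt (a : W m → ℕ) : ℕ := 2 * a none + a (some none)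

/-- An exponent vector involving only `x` and `y`. -/
def xy (m p q : ℕ) : W m → ℕ
  | none => p
  | some none => q
  | some (some _) => 0

/-- Positions that carry the leading term of a binomial at time `t`. -/
def ElimP (m t0 : ℕ) (rr : ℕ → ℕ) (t p : ℕ) : Prop :=
  1 ≤ jj m t0 p ∧ jj m t0 p ≤ rr (tau m t0 p) ∧ 1 ≤ tau m t0 p ∧ t0 + 2 ≤ idx m t0 p ∧
    idx m t0 p + 1 ≤ t0 + 2 + t ∧ idx m t0 p + 2 ≤ t0 + 2 + tau m t0 p

/-- The torsion condition on the exponents of the variables `z_i`. -/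
def Tors (a : W m → ℕ) : Prop :=
  ∃ i : Fin m, (i : ℕ) < rr (tau m t0 (a none)) ∧ AA m t0 - (i + 1) ≤ a (some (some i))

/-- Monomials of lowest weight that lie in the `t`-th power. -/
def ZeroP (t : ℕ) (a : W m → ℕ) : Prop :=
  (tau m t0 (a none) = 0 ∧ jj m t0 (a none) = 0 ∧
      (idx m t0 (a none) ≤ t ∨ t0 + 2 ≤ idx m t0 (a none))) ∨
    2 * (t0 + 2) ≤ idx m t0 (a none) ∨
    (1 ≤ tau m t0 (a none) ∧ jj m t0 (a none) = 0 ∧
      (t0 + 2 + tau m t0 (a none) + 1 ≤ idx m t0 (a none) ∨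
        (tau m t0 (a none) < t0 ∧ t0 + 2 ≤ idx m t0 (a none) ∧
          idx m t0 (a none) + 1 ≤ t0 + 2 + t) ∨
        (idx m t0 (a none) = t0 + 2 + tau m t0 (a none) ∧ tau m t0 (a none) ≤ t ∧
          Tors t0 rr a))) ∨
    (1 ≤ tau m t0 (a none) ∧ 1 ≤ jj m t0 (a none) ∧
      t0 + 2 + tau m t0 (a none) ≤ idx m t0 (a none) + 1)

/-- Exponents of the leading terms of binomials. -/
def EE (t : ℕ) : Set (W m → ℕ) := {a | wt a = lv m t0 t ∧ ElimP m t0 rr t (a none)}

/-- Exponents of the leading terms of the `t`-th power. -/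
def UU (t : ℕ) : Set (W m → ℕ) :=
  {a | lv m t0 t < wt a ∨ (wt a = lv m t0 t ∧ (ZeroP t0 rr t a ∨ ElimP m t0 rr t (a none)))}

/-- The second term of the binomial with given leading term. -/
def sh (a : W m → ℕ) : W m → ℕ
  | none => a none + (AA m t0 - jj m t0 (a none))
  | some none => a (some none) - 2 * (AA m t0 - jj m t0 (a none))
  | some (some i) => a (some (some i)) +
      if (i : ℕ) + 1 = jj m t0 (a none) then AA m t0 - jj m t0 (a none) else 0

variable {t0 rr}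

lemma wt_add (a b : W m → ℕ) : wt (a + b) = wt a + wt b := by
  simp only [wt, Pi.add_apply]
  ring

lemma EE_room {t : ℕ} {a : W m → ℕ} (ha : a ∈ EE t0 rr t) :
    2 * AA m t0 ≤ a (some none) := by
  obtain ⟨hw, h1, h2, h3, h4, h5, h6⟩ := ha
  have g1 := lv_ge (m := m) (t0 := t0) (t := t) (by omega)
  have g2 := le_idx_iff (m := m) (t0 := t0) (a none)
  have g3 := tau_le (m := m) (t0 := t0) (a none)
  have g4 := AA_le_BB (m := m) (t0 := t0)
  unfold wt at hw
  omega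

lemma wt_sh {t : ℕ} {a : W m → ℕ} (ha : a ∈ EE t0 rr t) : wt (sh t0 a) = wt a := by
  have := EE_room ha
  simp only [wt, sh]
  omega

lemma sh_not_mem (t : ℕ) (a : W m → ℕ) : sh t0 a ∉ EE t0 rr t := by
  rintro ⟨_, h1, _⟩
  simp only [sh] at h1
  rw [jj_tie] at h1
  omega

lemma not_elim_of_zero {t t' : ℕ} {a : W m → ℕ} (h : ZeroP t0 rr t a) :
    ¬ ElimP m t0 rr t' (a none) := by
  rintro ⟨h1, h2, h3, h4, h5, h6⟩
  have g3 := tau_le (m := m) (t0 := t0) (a none)
  unfold ZeroP at h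
  omega

lemma Tors.mono {a b : W m → ℕ} (h : Tors t0 rr a) (h1 : tau m t0 (b none) = tau m t0 (a none))
    (h2 : ∀ i : Fin m, (i : ℕ) < rr (tau m t0 (a none)) → a (some (some i)) ≤ b (some (some i))) :
    Tors t0 rr b := by
  obtain ⟨i, hi, ha⟩ := h
  exact ⟨i, h1 ▸ hi, ha.trans (h2 i hi)⟩

/-- The variables `z_i` that stay regular at time `t`. -/
def YY (m t0 : ℕ) (rr : ℕ → ℕ) (t : ℕ) : Finset (W m) :=
  (Finset.univ.filter fun i : Fin m => rr (min t t0) ≤ i).image fun i => some (some i)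

lemma mem_YY {t : ℕ} {x : W m} :
    x ∈ YY m t0 rr t ↔ ∃ i : Fin m, rr (min t t0) ≤ i ∧ x = some (some i) := by
  simp [YY, eq_comm]

lemma card_YY {t : ℕ} (h : rr (min t t0) ≤ m) : (YY m t0 rr t).card = m - rr (min t t0) := by
  rw [YY, Finset.card_image_of_injective _ (fun _ _ h => by simpa using h)]
  have := Fin.card_filter_val_lt (n := m) (m := rr (min t t0))
  have h2 := Finset.card_filter_add_card_filter_not (s := (Finset.univ : Finset (Fin m)))
    (fun i : Fin m => (i : ℕ) < rr (min t t0))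
  simp only [not_lt, Finset.card_univ, Fintype.card_fin] at h2
  omega

lemma up_UU (t : ℕ) : Up (YY m t0 rr t : Set (W m)) (UU t0 rr t) := by
  intro a b hab ha
  have h1 := hab none (by simp [mem_YY])
  have h2 := hab (some none) (by simp [mem_YY])
  rcases ha with ha | ⟨hw, ha⟩
  · left
    unfold wt at ha ⊢
    omega
  · by_cases hb : lv m t0 t < wt b
    · exact Or.inl hb
    have h3 : b none = a none := by
      unfold wt at hw hb
      omega
    refine Or.inr ⟨by unfold wt at hw hb ⊢; omega, ?_⟩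
    rcases ha with ha | ha
    · left
      have g3 := tau_le (m := m) (t0 := t0) (a none)
      have hT : tau m t0 (a none) = min t t0 → Tors t0 rr a → Tors t0 rr b := fun hτ h =>
        h.mono (by rw [h3]) fun i hi => hab _ (by
          simp only [Finset.mem_coe, mem_YY, Option.some.injEq, exists_eq_right', not_le]
          rwa [hτ] at hi)
      unfold ZeroP at ha ⊢
      rw [h3]
      by_cases hτ : tau m t0 (a none) = min t t0
      · have := hT hτ
        tauto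
      · rcases ha with ha | ha | ⟨k1, k2, ha | ha | ⟨k3, k4, _⟩⟩ | ha
        · exact Or.inl ha
        · exact Or.inr (Or.inl ha)
        · exact Or.inr (Or.inr (Or.inl ⟨k1, k2, Or.inl ha⟩))
        · exact Or.inr (Or.inr (Or.inl ⟨k1, k2, Or.inr (Or.inl ha)⟩))
        · exact Or.inr (Or.inr (Or.inl ⟨k1, k2, Or.inr (Or.inl (by omega))⟩))
        · exact Or.inr (Or.inr (Or.inr ha))
    · right
      rwa [h3]

lemma EE_subset (t : ℕ) : EE (m := m) t0 rr t ⊆ UU t0 rr t :=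
  fun _ ha => Or.inr ⟨ha.1, Or.inr ha.2⟩

lemma sh_add {t : ℕ} {a b : W m → ℕ} (ha : a ∈ EE t0 rr t) {l : ℕ}
    (hb : b none = AA m t0 * l) : sh t0 (b + a) = b + sh t0 a := by
  have := EE_room ha
  funext x
  rcases x with _ | _ | i
  · simp only [sh, Pi.add_apply, hb, jj_add]
    omega
  · simp only [sh, Pi.add_apply, hb, jj_add]
    omega
  · simp only [sh, Pi.add_apply, hb, jj_add]
    omega

variable {r : ℕ} (e : W m ≃ Fin r) (K : Type u) [Field K]

/-- The candidate for the `t`-th power. -/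
noncomputable def TT (t0 : ℕ) (rr : ℕ → ℕ) (t : ℕ) : Ideal (MvPolynomial (Fin r) K) :=
  Ideal.span (Gen e K (EE t0 rr t) (sh t0) (UU t0 rr t))

variable {e K}

lemma mem_big {t : ℕ} {a : W m → ℕ} (h : lv m t0 t < wt a) : mn e K a ∈ TT e K t0 rr t :=
  Ideal.subset_span (Or.inl ⟨a, Or.inl h, fun h' => absurd h'.1 h.ne', rfl⟩)

lemma mem_zero {t : ℕ} {a : W m → ℕ} (hw : wt a = lv m t0 t) (h : ZeroP t0 rr t a) :
    mn e K a ∈ TT e K t0 rr t :=
  Ideal.subset_span (Or.inl ⟨a, Or.inr ⟨hw, Or.inl h⟩, fun h' => not_elim_of_zero h h'.2, rfl⟩)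

lemma mem_bin {t : ℕ} {a : W m → ℕ} (h : a ∈ EE t0 rr t) :
    mn e K a + mn e K (sh t0 a) ∈ TT e K t0 rr t :=
  Ideal.subset_span (Or.inr ⟨a, h, rfl⟩)

lemma th_z (t : ℕ) (i : Fin m) (f : MvPolynomial (Fin r) K) :
    th e K (EE t0 rr t) (sh t0) (X (e (some (some i))) * f) =
      X (e (some (some i))) * th e K (EE t0 rr t) (sh t0) f := by
  refine th_X_mul (fun a => ?_) (fun a ha => ?_) f
  · simp [EE, wt]
  · exact sh_add ha (l := 0) (by simp)

lemma rel_TT (t : ℕ) : Rel (th e K (EE t0 rr t) (sh t0)) e (TT e K t0 rr t) (UU t0 rr t) := by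
  have hU := (up_UU (m := m) (t0 := t0) (rr := rr) t).empty
  refine rel_span (fun a _ => sh_not_mem t a) hU (EE_subset t) fun x g hg => ?_
  have hbig : ∀ a : W m → ℕ, lv m t0 t < wt a →
      th e K (EE t0 rr t) (sh t0) (mn e K a) ∈ MI e K (UU t0 rr t) := fun a h => by
    rw [th_not_mem fun h' => absurd h'.1 h.ne']
    exact (mn_mem_MI hU).2 (Or.inl h)
  have hxy : ∀ x : W m, 1 ≤ wt (Pi.single x 1 : W m → ℕ) →
      th e K (EE t0 rr t) (sh t0) (X (e x) * g) ∈ MI e K (UU t0 rr t) := by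
    intro x hx
    rw [← pow_one (X (e x)), ← mn_single]
    rcases hg with ⟨a, ha, _, rfl⟩ | ⟨a, ha, rfl⟩
    · rw [← mn_add]
      apply hbig
      rw [wt_add]
      rcases ha with ha | ha <;> omega
    · rw [mul_add, ← mn_add, ← mn_add, map_add]
      have h1 := ha.1
      have h2 := wt_sh ha
      exact Ideal.add_mem _ (hbig _ (by rw [wt_add]; omega)) (hbig _ (by rw [wt_add]; omega))
  rcases x with _ | _ | i
  · exact hxy _ (by simp [wt])
  · exact hxy _ (by simp [wt])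
  · rw [th_z]
    exact Ideal.mul_mem_left _ _ (th_gen (fun a _ => sh_not_mem t a) hU (EE_subset t) hg)

lemma zero_shift {t n l : ℕ} {a b : W m → ℕ} (hb : b none = AA m t0 * l) (hl : l ≤ n)
    (h : ZeroP t0 rr t a) : ZeroP t0 rr (t + n) (b + a) := by
  have hT : Tors t0 rr a → Tors t0 rr (b + a) := fun h =>
    h.mono (by simp only [Pi.add_apply, hb, tau_add]) fun i _ => Nat.le_add_left _ _
  unfold ZeroP at h ⊢
  simp only [Pi.add_apply, hb, idx_add, tau_add, jj_add]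
  rcases h with ha | ha | ⟨k1, k2, ha | ha | ⟨k3, k4, k5⟩⟩ | ha
  · exact Or.inl (by omega)
  · exact Or.inr (Or.inl (by omega))
  · exact Or.inr (Or.inr (Or.inl ⟨k1, k2, Or.inl (by omega)⟩))
  · exact Or.inr (Or.inr (Or.inl ⟨k1, k2, Or.inr (Or.inl (by omega))⟩))
  · by_cases hl0 : l = 0
    · exact Or.inr (Or.inr (Or.inl ⟨k1, k2, Or.inr (Or.inr ⟨by omega, by omega, hT k5⟩)⟩))
    · exact Or.inr (Or.inr (Or.inl ⟨k1, k2, Or.inl (by omega)⟩))
  · exact Or.inr (Or.inr (Or.inr (by omega)))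

lemma tors_sh (hrr : ∀ τ, rr τ ≤ m) {t : ℕ} {a : W m → ℕ} (ha : a ∈ EE t0 rr t) :
    Tors t0 rr (sh t0 a) := by
  obtain ⟨_, h1, h2, _⟩ := ha
  have h3 := hrr (tau m t0 (a none))
  refine ⟨⟨jj m t0 (a none) - 1, by omega⟩, ?_, ?_⟩
  · simp only [sh, tau_tie]
    omega
  · have h4 : jj m t0 (a none) - 1 + 1 = jj m t0 (a none) := by omega
    simp only [sh, h4, if_true]
    omega

lemma shift_mem (hrr : ∀ τ, rr τ ≤ m) {t n l : ℕ} {b : W m → ℕ} (hb : b none = AA m t0 * l)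
    (hl : l ≤ n) (hw : wt b = lv m t0 n) {g : MvPolynomial (Fin r) K}
    (hg : g ∈ Gen e K (EE t0 rr t) (sh t0) (UU t0 rr t)) :
    mn e K b * g ∈ TT e K t0 rr (t + n) := by
  have hlv := lv_add (m := m) (t0 := t0) t n
  rcases hg with ⟨a, ha, hE, rfl⟩ | ⟨a, ha, rfl⟩
  · rw [← mn_add]
    rcases ha with ha | ⟨hwa, ha | ha⟩
    · exact mem_big (by rw [wt_add]; omega)
    · exact mem_zero (by rw [wt_add]; omega) (zero_shift hb hl ha)
    · exact absurd ⟨hwa, ha⟩ hE
  · rw [mul_add, ← mn_add, ← mn_add]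
    have hws := wt_sh ha
    have hT := tors_sh hrr ha
    have hsa := sh_add ha hb
    obtain ⟨hwa, h1, h2, h3, h4, h5, h6⟩ := ha
    by_cases hc : idx m t0 (a none) + l + 2 ≤ t0 + 2 + tau m t0 (a none)
    · rw [← hsa]
      refine mem_bin ⟨by rw [wt_add]; omega, ?_⟩
      simp only [ElimP, Pi.add_apply, hb, idx_add, tau_add, jj_add]
      omega
    · refine Ideal.add_mem _ (mem_zero (by rw [wt_add]; omega) ?_)
        (mem_zero (by rw [wt_add]; omega) ?_)
      · refine Or.inr (Or.inr (Or.inr ?_))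
        simp only [Pi.add_apply, hb, idx_add, tau_add, jj_add]
        omega
      · have hT' : Tors t0 rr (b + sh t0 a) :=
          hT.mono (by simp only [Pi.add_apply, hb, tau_add]) fun i _ => Nat.le_add_left _ _
        refine Or.inr (Or.inr (Or.inl ?_))
        simp only [Pi.add_apply, hb, idx_add, tau_add, jj_add, sh, idx_tie, tau_tie, jj_tie]
        refine ⟨h3, trivial, ?_⟩
        by_cases hc' : idx m t0 (a none) + l + 1 = t0 + 2 + tau m t0 (a none)
        · exact Or.inr (Or.inr ⟨by omega, by omega, hT'⟩)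
        · exact Or.inl (by omega)

/-- A monomial or binomial all of whose exponents satisfy `P`. -/
def Terms (e : W m ≃ Fin r) (K : Type u) [Field K] (P : (W m → ℕ) → Prop)
    (g : MvPolynomial (Fin r) K) : Prop :=
  (∃ a, P a ∧ g = mn e K a) ∨ ∃ a b, P a ∧ P b ∧ g = mn e K a + mn e K b

lemma Terms.mul {P Q : (W m → ℕ) → Prop} {g g' : MvPolynomial (Fin r) K}
    (h : Terms e K P g) (h' : Terms e K Q g') {J : Ideal (MvPolynomial (Fin r) K)}
    (hJ : ∀ a b, P a → Q b → mn e K (a + b) ∈ J) : g * g' ∈ J := by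
  simp only [mn_add] at hJ
  rcases h with ⟨a, ha, rfl⟩ | ⟨a, b, ha, hb, rfl⟩ <;>
    rcases h' with ⟨c, hc, rfl⟩ | ⟨c, d, hc, hd, rfl⟩
  · exact hJ a c ha hc
  · rw [mul_add]
    exact J.add_mem (hJ a c ha hc) (hJ a d ha hd)
  · rw [add_mul]
    exact J.add_mem (hJ a c ha hc) (hJ b c hb hc)
  · rw [add_mul, mul_add, mul_add]
    exact J.add_mem (J.add_mem (hJ a c ha hc) (hJ a d ha hd))
      (J.add_mem (hJ b c hb hc) (hJ b d hb hd))

lemma gen_cases {t : ℕ} {g : MvPolynomial (Fin r) K}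
    (hg : g ∈ Gen e K (EE t0 rr t) (sh t0) (UU t0 rr t)) :
    (∃ b l, b none = AA m t0 * l ∧ l ≤ t ∧ wt b = lv m t0 t ∧ g = mn e K b) ∨
      Terms e K (fun a => lv m t0 t < wt a ∨ (wt a = lv m t0 t ∧ t0 + 2 ≤ idx m t0 (a none))) g := by
  rcases hg with ⟨a, ha, hE, rfl⟩ | ⟨a, ha, rfl⟩
  · rcases ha with ha | ⟨hwa, ha | ha⟩
    · exact Or.inr (Or.inl ⟨a, Or.inl ha, rfl⟩)
    · by_cases hi : t0 + 2 ≤ idx m t0 (a none)
      · exact Or.inr (Or.inl ⟨a, Or.inr ⟨hwa, hi⟩, rfl⟩)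
      · unfold ZeroP at ha
        have h1 : tau m t0 (a none) = 0 ∧ jj m t0 (a none) = 0 ∧ idx m t0 (a none) ≤ t := by
          omega
        exact Or.inl ⟨a, _, low_eq h1.1 h1.2.1, h1.2.2, hwa, rfl⟩
    · exact absurd ⟨hwa, ha⟩ hE
  · have hws := wt_sh ha
    obtain ⟨hwa, h1, h2, h3, h4, h5, h6⟩ := ha
    refine Or.inr (Or.inr ⟨a, sh t0 a, Or.inr ⟨hwa, h4⟩, Or.inr ⟨by omega, ?_⟩, rfl⟩)
    simp only [sh, idx_tie]
    omega

lemma mul_le_TT (hrr : ∀ τ, rr τ ≤ m) (s t : ℕ) :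
    TT e K t0 rr s * TT e K t0 rr t ≤ TT e K t0 rr (s + t) := by
  rw [TT, TT, Ideal.span_mul_span', Ideal.span_le]
  rintro _ ⟨g, hg, g', hg', rfl⟩
  change g * g' ∈ TT e K t0 rr (s + t)
  rcases gen_cases hg with ⟨b, l, hb, hl, hw, rfl⟩ | h
  · rw [add_comm]
    exact shift_mem hrr hb hl hw hg'
  rcases gen_cases hg' with ⟨b, l, hb, hl, hw, rfl⟩ | h'
  · rw [mul_comm]
    exact shift_mem hrr hb hl hw hg
  refine h.mul h' fun a b ha hb => ?_
  have hlv := lv_add (m := m) (t0 := t0) s t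
  by_cases hbig : lv m t0 (s + t) < wt (a + b)
  · exact mem_big hbig
  · rw [wt_add] at hbig
    refine mem_zero (by rw [wt_add]; omega) (Or.inr (Or.inl ?_))
    have := idx_super (m := m) (t0 := t0) (a none) (b none)
    simp only [Pi.add_apply]
    omega

end Pool.Agent.P.MP_07d438_ag
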