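import Mathlib
import Pool.Agent.P.MP_07d438_ag.Construction

open MvPolynomial

namespace Pool.Agent.P.MP_07d438_ag

open Pool.Agent.P.MP_b90300_al (MI Up mx)

universe u

variable {m t0 : ℕ} {rr : ℕ → ℕ} {r : ℕ} {e : W m ≃ Fin r} {K : Type u} [Field K]

lemma split_xy (a : W m → ℕ) {p q : ℕ} (hp : p ≤ a none) (hq : q ≤ a (some none)) :
    ∃ a', a = xy m p q + a' ∧ a none = p + a' none ∧ a (some none) = q + a' (some none) ∧
      ∀ i, a' (some (some i)) = a (some (some i)) := by
  refine ⟨a - xy m p q, ?_, ?_, ?_, fun i => ?_⟩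
  · funext x
    rcases x with _ | _ | i <;> simp [xy, hp, hq]
  · simp [xy, hp]
  · simp [xy, hq]
  · simp [xy]

lemma one_mem : mn e K (xy m 0 (8 * BB m t0)) ∈ TT e K t0 rr 1 := by
  refine mem_zero (by simp [wt, xy, lv_one]) (Or.inl ?_)
  simp [xy, idx_zero, tau_zero, jj_zero]

lemma u_mem : mn e K (xy m (AA m t0 * 1) (8 * BB m t0 - 2 * AA m t0)) ∈ TT e K t0 rr 1 := by
  have := AA_le_BB (m := m) (t0 := t0)
  refine mem_zero (by simp only [wt, xy, lv_one]; omega) (Or.inl ?_)
  have h1 := idx_add (m := m) (t0 := t0) 0 1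
  have h2 := tau_add (m := m) (t0 := t0) 0 1
  have h3 := jj_add (m := m) (t0 := t0) 0 1
  rw [add_zero, idx_zero] at h1
  rw [add_zero, tau_zero] at h2
  rw [add_zero, jj_zero] at h3
  simp only [xy]
  omega

lemma high_mem {p : ℕ} (h1 : 2 * BB m t0 ≤ p) (h2 : p ≤ 4 * BB m t0) :
    mn e K (xy m p (8 * BB m t0 - 2 * p)) ∈ TT e K t0 rr 1 := by
  refine mem_zero (by simp only [wt, xy, lv_one]; omega) (Or.inr (Or.inl ?_))
  exact (le_idx_iff p).2 h1

lemma bin_prod {t l : ℕ} {a b : W m → ℕ} (ha : a ∈ EE t0 rr t) (hb : b none = AA m t0 * l)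
    (hbT : mn e K b ∈ TT e K t0 rr 1) :
    mn e K (b + a) + mn e K (sh t0 (b + a)) ∈ TT e K t0 rr 1 * TT e K t0 rr t := by
  rw [sh_add ha hb, mn_add, mn_add, ← mul_add]
  exact Ideal.mul_mem_mul hbT (mem_bin ha)

lemma zero_same {t : ℕ} {a : W m → ℕ} (hw : wt a = lv m t0 (t + 1))
    (hq : 8 * BB m t0 ≤ a (some none)) (h : ZeroP t0 rr t a) :
    mn e K a ∈ TT e K t0 rr 1 * TT e K t0 rr t := by
  have hlv := lv_add (m := m) (t0 := t0) t 1
  rw [lv_one] at hlv
  obtain ⟨a', ha, h1, h2, h3⟩ := split_xy a (Nat.zero_le _) hq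
  rw [zero_add] at h1
  have hT : Tors t0 rr a → Tors t0 rr a' := fun h => h.mono (by rw [h1]) fun i _ => (h3 i).ge
  rw [ha, mn_add]
  refine Ideal.mul_mem_mul one_mem (mem_zero (by unfold wt at hw ⊢; omega) ?_)
  unfold ZeroP at h ⊢
  rw [← h1]
  tauto

lemma le_mul_TT {t : ℕ} (ht : 1 ≤ t) :
    TT e K t0 rr (t + 1) ≤ TT e K t0 rr 1 * TT e K t0 rr t := by
  have hlv := lv_add (m := m) (t0 := t0) t 1
  rw [lv_one] at hlv
  have hge := lv_ge (m := m) (t0 := t0) ht
  have hAB := AA_le_BB (m := m) (t0 := t0)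
  rw [TT, Ideal.span_le]
  intro g hg
  change g ∈ TT e K t0 rr 1 * TT e K t0 rr t
  rcases hg with ⟨a, ha, hE, rfl⟩ | ⟨a, ha, rfl⟩
  · rcases ha with ha | ⟨hw, ha | ha⟩
    · by_cases hq : 8 * BB m t0 ≤ a (some none)
      · obtain ⟨a', ha', h1, h2, _⟩ := split_xy a (Nat.zero_le _) hq
        rw [ha', mn_add]
        exact Ideal.mul_mem_mul one_mem (mem_big (by unfold wt at ha ⊢; omega))
      · obtain ⟨a', ha', h1, h2, _⟩ := split_xy a (p := 4 * BB m t0)
          (q := 8 * BB m t0 - 2 * (4 * BB m t0)) (by unfold wt at ha; omega) (by omega)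
        rw [ha', mn_add]
        exact Ideal.mul_mem_mul (high_mem (by omega) le_rfl)
          (mem_big (by unfold wt at ha ⊢; omega))
    · have hw' := hw
      unfold wt at hw'
      by_cases hi : 2 * (t0 + 2) ≤ idx m t0 (a none)
      · by_cases hq : 8 * BB m t0 ≤ a (some none)
        · exact zero_same hw hq (Or.inr (Or.inl hi))
        · obtain ⟨a', ha', h1, h2, _⟩ := split_xy a (p := min (4 * BB m t0) (a none - 2 * BB m t0))
            (q := 8 * BB m t0 - 2 * min (4 * BB m t0) (a none - 2 * BB m t0)) (by omega) (by omega)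
          rw [ha', mn_add]
          refine Ideal.mul_mem_mul (high_mem (by omega) (by omega))
            (mem_zero (by unfold wt; omega) (Or.inr (Or.inl ((le_idx_iff _).2 (by omega)))))
      · have hp : a none < 2 * BB m t0 := by
          have := le_idx_iff (m := m) (t0 := t0) (a none)
          omega
        by_cases hz : ZeroP t0 rr t a
        · exact zero_same hw (by omega) hz
        have hshift : 1 ≤ idx m t0 (a none) → (∀ a' : W m → ℕ, a none = AA m t0 * 1 + a' none →
            ZeroP t0 rr t a') → mn e K a ∈ TT e K t0 rr 1 * TT e K t0 rr t := by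
          intro h1 h2
          have h3 := AA_le_of_idx h1
          obtain ⟨a', ha', k1, k2, _⟩ := split_xy a (p := AA m t0 * 1)
            (q := 8 * BB m t0 - 2 * AA m t0) (by omega) (by omega)
          rw [ha', mn_add]
          exact Ideal.mul_mem_mul u_mem (mem_zero (by unfold wt; omega) (h2 a' k1))
        rcases ha with ha | ha | ⟨k1, k2, ha | ha | ⟨k3, k4, k5⟩⟩ | ha
        · have h0 : ¬ (idx m t0 (a none) ≤ t ∨ t0 + 2 ≤ idx m t0 (a none)) :=
            fun h => hz (Or.inl ⟨ha.1, ha.2.1, h⟩)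
          refine hshift (by omega) fun a' h => Or.inl ?_
          rw [h, idx_add, tau_add, jj_add] at ha
          rw [h, idx_add] at h0
          omega
        · exact absurd ha hi
        · exact absurd (Or.inr (Or.inr (Or.inl ⟨k1, k2, Or.inl ha⟩))) hz
        · have h0 : ¬ (idx m t0 (a none) + 1 ≤ t0 + 2 + t) :=
            fun h => hz (Or.inr (Or.inr (Or.inl ⟨k1, k2, Or.inr (Or.inl ⟨ha.1, ha.2.1, h⟩)⟩)))
          refine hshift (by omega) fun a' h => Or.inr (Or.inr (Or.inl ?_))
          rw [h, idx_add, tau_add] at ha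
          rw [h, idx_add] at h0
          rw [h, tau_add] at k1
          rw [h, jj_add] at k2
          exact ⟨k1, k2, Or.inr (Or.inl (by omega))⟩
        · have h0 : ¬ (tau m t0 (a none) ≤ t) :=
            fun h => hz (Or.inr (Or.inr (Or.inl ⟨k1, k2, Or.inr (Or.inr ⟨k3, h, k5⟩)⟩)))
          obtain ⟨i, hi1, hi2⟩ := k5
          have hτ := tau_le (m := m) (t0 := t0) (a none)
          have him : (i : ℕ) + 1 ≤ m := i.2
          have hA := lt_AA (m := m) (t0 := t0)
          let a2 : W m → ℕ := fun x => match x with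
            | none => pos m t0 (tau m t0 (a none)) (i + 1) (t0 + 2 + t)
            | some none => a (some none) + 2 * (AA m t0 - (i + 1))
            | some (some k) => a (some (some k)) - if k = i then AA m t0 - (i + 1) else 0
          have j1 : idx m t0 (a2 none) = t0 + 2 + t := idx_pos hτ him _
          have j2 : tau m t0 (a2 none) = tau m t0 (a none) := tau_pos hτ him _
          have j3 : jj m t0 (a2 none) = i + 1 := jj_pos hτ him _
          have j4 : a2 none + (AA m t0 - (i + 1)) = a none := by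
            have h1 := tie_eq (m := m) (t0 := t0) (a2 none)
            have h2 := pos_eq (m := m) (t0 := t0) (a none)
            rw [j1, j2, j3] at h1
            have h3 : idx m t0 (a none) = t0 + 2 + t + 1 := by omega
            rw [k2, h3] at h2
            exact h1.trans h2
          have j5 : a2 (some none) = a (some none) + 2 * (AA m t0 - (i + 1)) := rfl
          have hsh : sh t0 a2 = a := by
            funext x
            rcases x with _ | _ | k
            · simp only [sh, j3, j4]
            · simp only [sh, j3, j5]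
              omega
            · have j6 : a2 (some (some k)) =
                  a (some (some k)) - if k = i then AA m t0 - (i + 1) else 0 := rfl
              simp only [sh, j3, j6]
              by_cases hk : k = i
              · subst hk
                simp only [if_true]
                omega
              · have : ¬ ((k : ℕ) + 1 = i + 1) := fun h => hk (Fin.ext (by omega))
                rw [if_neg hk, if_neg this]
                rfl
          have hw2 : wt a2 = lv m t0 (t + 1) := by
            unfold wt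
            omega
          have h3 := AA_le_of_idx (m := m) (t0 := t0) (p := a2 none) (by omega)
          obtain ⟨a3, ha3, l1, l2, _⟩ := split_xy a2 (p := AA m t0 * 1)
            (q := 8 * BB m t0 - 2 * AA m t0) (by omega) (by omega)
          have hE3 : a3 ∈ EE t0 rr t := by
            refine ⟨by unfold wt at hw2 ⊢; omega, ?_⟩
            rw [l1, idx_add] at j1
            rw [l1, tau_add] at j2
            rw [l1, jj_add] at j3
            unfold ElimP
            rw [j2, j3]
            omega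
          have m1 := bin_prod (e := e) (K := K) hE3 (l := 1) rfl u_mem
          rw [← ha3, hsh] at m1
          have m2 : mn e K a2 ∈ TT e K t0 rr 1 * TT e K t0 rr t :=
            zero_same hw2 (by omega) (Or.inr (Or.inr (Or.inr (by omega))))
          simpa using Ideal.sub_mem _ m1 m2
        · exact absurd (Or.inr (Or.inr (Or.inr ha))) hz
    · exact absurd ⟨hw, ha⟩ hE
  · obtain ⟨hw, h1, h2, h3, h4, h5, h6⟩ := ha
    have hτ := tau_le (m := m) (t0 := t0) (a none)
    have hp : a none < 2 * BB m t0 := by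
      have := le_idx_iff (m := m) (t0 := t0) (a none)
      omega
    unfold wt at hw
    by_cases hc : idx m t0 (a none) + 1 ≤ t0 + 2 + t
    · obtain ⟨a', ha', k1, k2, _⟩ := split_xy a (p := AA m t0 * 0) (q := 8 * BB m t0)
        (by omega) (by omega)
      have hE : a' ∈ EE t0 rr t := by
        refine ⟨by unfold wt; omega, ?_⟩
        rw [mul_zero, zero_add] at k1
        rw [← k1]
        exact ⟨h1, h2, h3, h4, hc, h6⟩
      rw [ha']
      exact bin_prod hE (l := 0) rfl one_mem
    · have h7 := AA_le_of_idx (m := m) (t0 := t0) (p := a none) (by omega)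
      obtain ⟨a', ha', k1, k2, _⟩ := split_xy a (p := AA m t0 * 1)
        (q := 8 * BB m t0 - 2 * AA m t0) (by omega) (by omega)
      have hE : a' ∈ EE t0 rr t := by
        refine ⟨by unfold wt; omega, ?_⟩
        rw [k1] at h1 h2 h3 h4 h5 h6 hc
        simp only [idx_add, tau_add, jj_add] at h1 h2 h3 h4 h5 h6 hc
        exact ⟨h1, h2, h3, by omega, by omega, by omega⟩
      rw [ha']
      exact bin_prod hE (l := 1) rfl u_mem

lemma TT_pow (hrr : ∀ τ, rr τ ≤ m) {t : ℕ} (ht : 1 ≤ t) :
    TT e K t0 rr 1 ^ t = TT e K t0 rr t := by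
  induction t, ht using Nat.le_induction with
  | base => exact pow_one _
  | succ t ht ih =>
    rw [pow_succ', ih]
    refine le_antisymm ?_ (le_mul_TT ht)
    rw [add_comm t 1]
    exact mul_le_TT hrr 1 t

lemma homogeneous_TT (hrr : ∀ τ, rr τ ≤ m) (t : ℕ) : IsHomogeneousIdeal (TT e K t0 rr t) := by
  refine ⟨_, fun g hg => ?_, rfl⟩
  rcases hg with ⟨a, _, _, rfl⟩ | ⟨a, ha, rfl⟩
  · exact ⟨_, mn_homogeneous a⟩
  · refine ⟨_, (mn_homogeneous a).add ?_⟩
    have h := mn_homogeneous (e := e) (K := K) (sh t0 a)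
    have hroom := EE_room ha
    obtain ⟨_, h1, h2, _⟩ := ha
    have h3 := hrr (tau m t0 (a none))
    have hs : ∑ x, sh t0 a x = ∑ x, a x := by
      simp only [Fintype.sum_option, sh, Finset.sum_add_distrib]
      have : ∑ i : Fin m, (if (i : ℕ) + 1 = jj m t0 (a none) then AA m t0 - jj m t0 (a none)
          else 0) = AA m t0 - jj m t0 (a none) := by
        rw [Finset.sum_eq_single ⟨jj m t0 (a none) - 1, by omega⟩]
        · rw [if_pos (by simp only; omega)]
        · intro i _ hi
          rw [if_neg fun h => hi (Fin.ext (by simp only; omega))]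
        · simp
      rw [this]
      omega
    rwa [hs] at h

lemma DM_TT (t : ℕ) : DM (TT e K t0 rr t) (YY m t0 rr t).card := by
  refine (rel_TT t).dm (th_surjective fun a _ => sh_not_mem t a) _ (fun y hy => ?_) (up_UU t)
  obtain ⟨i, _, rfl⟩ := mem_YY.1 hy
  exact th_z t i

lemma not_DM_TT (ht0 : 1 ≤ t0) {t : ℕ} (ht : 1 ≤ t) :
    ¬ DM (TT e K t0 rr t) ((YY m t0 rr t).card + 1) := by
  have hτ : min t t0 ≤ t0 := min_le_right _ _
  have hge := lv_ge (m := m) (t0 := t0) ht
  have hA := lt_AA (m := m) (t0 := t0)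
  let p := pos m t0 (min t t0) 0 (t0 + 2 + min t t0)
  have j1 : idx m t0 p = t0 + 2 + min t t0 := idx_pos hτ (Nat.zero_le _) _
  have j2 : tau m t0 p = min t t0 := tau_pos hτ (Nat.zero_le _) _
  have j3 : jj m t0 p = 0 := jj_pos hτ (Nat.zero_le _) _
  have hp : p < 2 * BB m t0 := by
    have := le_idx_iff (m := m) (t0 := t0) p
    omega
  let a : W m → ℕ := xy m p (lv m t0 t - 2 * p)
  have ha0 : a none = p := rfl
  have hw : wt a = lv m t0 t := by
    simp only [wt, a, xy]
    omega
  have hE : ¬ ElimP m t0 rr t (a none) := by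
    rintro ⟨h1, _⟩
    rw [ha0, j3] at h1
    omega
  refine (rel_TT t).not_dm (th_surjective fun a _ => sh_not_mem t a) _ (fun y hy => ?_) (up_UU t)
    (a := a) (th_not_mem fun h => hE h.2) ?_ ?_ ?_
  · obtain ⟨i, _, rfl⟩ := mem_YY.1 hy
    exact th_z t i
  · rintro (h | ⟨_, h | h⟩)
    · omega
    · have hT : ¬ Tors t0 rr a := by
        rintro ⟨i, _, hi⟩
        have : (i : ℕ) < m := i.2
        have h0 : a (some (some i)) = 0 := rfl
        omega
      unfold ZeroP at h
      rw [ha0, j1, j2, j3] at h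
      simp only [hT, and_false, or_false] at h
      omega
    · exact hE h
  · intro y hy
    obtain ⟨i, _, rfl⟩ := mem_YY.1 hy
    rfl
  · intro x hx
    rcases x with _ | _ | i
    · refine ⟨1, ?_⟩
      rw [← mn_single, ← mn_add]
      exact mem_big (by rw [wt_add, hw]; simp [wt])
    · refine ⟨1, ?_⟩
      rw [← mn_single, ← mn_add]
      exact mem_big (by rw [wt_add, hw]; simp [wt])
    · have hi : (i : ℕ) < rr (min t t0) := by
        by_contra h
        exact hx (mem_YY.2 ⟨i, by omega, rfl⟩)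
      refine ⟨AA m t0 - (i + 1), ?_⟩
      rw [← mn_single, ← mn_add]
      have hb : (Pi.single (some (some i)) (AA m t0 - (i + 1)) + a : W m → ℕ) none = p := by
        simp [ha0]
      refine mem_zero (by rw [wt_add, hw]; simp [wt]) (Or.inr (Or.inr (Or.inl ?_)))
      rw [hb, j1, j2, j3]
      refine ⟨by omega, rfl, Or.inr (Or.inr ⟨rfl, min_le_left _ _, i, ?_, ?_⟩)⟩
      · rwa [hb, j2]
      · simp

theorem realized_add_two (K : Type u) [Field K] (f : ℕ → ℕ) (m t0 : ℕ) (ht0 : 1 ≤ t0)
    (hconv : ∀ t, t0 ≤ t → f t = f t0) (hm : ∀ t, 1 ≤ t → f t ≤ m) : RealizedIn K (m + 2) f := by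
  let e : W m ≃ Fin (m + 2) := Fintype.equivFinOfCardEq (by simp)
  let rr : ℕ → ℕ := fun τ => m - f τ
  have hrr : ∀ τ, rr τ ≤ m := fun τ => Nat.sub_le _ _
  have hne : ∀ t, 1 ≤ t → TT e K t0 rr t ≠ ⊤ := fun t ht h =>
    not_DM_TT (e := e) (K := K) (rr := rr) ht0 ht (by rw [h]; exact DE_top _ _)
  refine ⟨TT e K t0 rr 1, homogeneous_TT hrr 1, hne 1 le_rfl, fun h => ?_, fun t ht => ?_⟩
  · have h1 : mn e K (xy m 0 (8 * BB m t0)) ∈ TT e K t0 rr 1 := one_mem
    rw [h, Ideal.mem_bot] at h1
    exact mn_ne_zero _ h1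
  · rw [TT_pow hrr ht, depth_eq_of_DM (le_mx_of_homogeneous (homogeneous_TT hrr t) (hne t ht))
      (DM_TT t) (not_DM_TT ht0 ht), card_YY (hrr _)]
    have h1 : f (min t t0) = f t := by
      rcases le_total t t0 with h | h
      · rw [min_eq_left h]
      · rw [min_eq_right h, hconv t h]
    have h2 := hm t ht
    have h3 : m - rr (min t t0) = f t := by
      simp only [rr, h1]
      omega
    rw [h3]

theorem realized_add_one (K : Type u) [Field K] (f : ℕ → ℕ) (m : ℕ)
    (hm : ∀ t, 1 ≤ t → f t = m) : RealizedIn K (m + 1) f := by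
  have hX : (X 0 : MvPolynomial (Fin (m + 1)) K) ∈ mx K := Ideal.subset_span ⟨0, rfl⟩
  have hle : Ideal.span {(X 0 : MvPolynomial (Fin (m + 1)) K)} ≤ mx K :=
    (Ideal.span_singleton_le_iff_mem _).2 hX
  refine ⟨Ideal.span {X 0}, ⟨_, fun g hg => ⟨1, ?_⟩, rfl⟩, fun h => ?_, ?_, fun t ht => ?_⟩
  · rw [Set.mem_singleton_iff.1 hg]
    exact isHomogeneous_X _ _
  · exact mx_prime.ne_top (top_le_iff.1 (h ▸ hle))
  · rw [Ne, Ideal.span_singleton_eq_bot]
    exact X_ne_zero _
  · rw [Ideal.span_singleton_pow, hm t ht]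
    have h1 := Ideal.pow_mem_of_mem _ hX t ht
    exact depth_eq_of_DM ((Ideal.span_singleton_le_iff_mem _).2 h1)
      (DM_principal (pow_ne_zero t (X_ne_zero _)) le_rfl)
      (not_DM_principal (pow_ne_zero t (X_ne_zero _)) h1)

end Pool.Agent.P.MP_07d438_ag
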